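import Mathlib

set_option autoImplicit false

namespace Pool.Agent.W226.VQ

section alg
variable {R : Type*} [CommRing R]

/-- discriminant of the form `u 0 * Y ^ 2 + u 1 * X * Y + u 2 * X ^ 2` -/
def dsc (u : Fin 3 → R) : R := u 1 ^ 2 - 4 * u 0 * u 2
/-- the polar form of the discriminant -/
def pol (u w : Fin 3 → R) : R := u 1 * w 1 - 2 * u 0 * w 2 - 2 * u 2 * w 0
/-- the resultant of two binary quadratic forms -/
def res (u w : Fin 3 → R) : R :=
  (u 0 * w 2 - u 2 * w 0) ^ 2 - (u 0 * w 1 - u 1 * w 0) * (u 1 * w 2 - u 2 * w 1)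
/-- the value at a point -/
def ev (u : Fin 3 → R) (P : R × R) : R := u 0 * P.2 ^ 2 + u 1 * (P.1 * P.2) + u 2 * P.1 ^ 2
/-- the polar form at two points -/
def bi (u : Fin 3 → R) (P Q : R × R) : R :=
  2 * u 0 * P.2 * Q.2 + u 1 * (P.1 * Q.2 + Q.1 * P.2) + 2 * u 2 * P.1 * Q.1
def dt (P Q : R × R) : R := P.1 * Q.2 - Q.1 * P.2
def det3 (u w z : Fin 3 → R) : R :=
  u 0 * (w 1 * z 2 - w 2 * z 1) - u 1 * (w 0 * z 2 - w 2 * z 0) + u 2 * (w 0 * z 1 - w 1 * z 0)

lemma bi_sq (u : Fin 3 → R) (P Q : R × R) :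
    bi u P Q ^ 2 - 4 * ev u P * ev u Q = dt P Q ^ 2 * dsc u := by
  unfold bi ev dt dsc; ring

lemma bi_pol (u w : Fin 3 → R) (P Q : R × R) :
    bi u P Q * bi w P Q - 2 * ev u P * ev w Q - 2 * ev u Q * ev w P = dt P Q ^ 2 * pol u w := by
  unfold bi ev dt pol; ring

lemma ev_res (u w : Fin 3 → R) (P Q : R × R) :
    (ev u P * ev w Q - ev u Q * ev w P) ^ 2 -
      (ev u P * bi w P Q - bi u P Q * ev w P) * (bi u P Q * ev w Q - ev u Q * bi w P Q) =
      dt P Q ^ 4 * res u w := by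
  unfold bi ev dt res; ring

lemma four_res (u w : Fin 3 → R) : 4 * res u w = pol u w ^ 2 - dsc u * dsc w := by
  unfold res pol dsc; ring

lemma ev_det (u w z : Fin 3 → R) (P Q : R × R) :
    det3 (![ev u P, bi u P Q, ev u Q]) (![ev w P, bi w P Q, ev w Q])
      (![ev z P, bi z P Q, ev z Q]) = -(dt P Q ^ 3 * det3 u w z) := by
  unfold det3 bi ev dt; simp; ring

lemma res_self (u : Fin 3 → R) : res u u = 0 := by unfold res; ring

/-- change of variables inside a pencil -/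
lemma res_comb (u w : Fin 3 → R) (a b c d : R) :
    res (fun i => a * u i + b * w i) (fun i => c * u i + d * w i) =
      (a * d - b * c) ^ 2 * res u w := by
  unfold res; ring

end alg

end Pool.Agent.W226.VQ
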