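import Mathlib
import Pool.Agent.W226.VQ.Alg

set_option autoImplicit false

namespace Pool.Agent.W226.VQ

open Module Finset

/-- A finite set of points of a lattice of rank `n` all of whose determinants are at most `M` has at
most `5 ^ n M` elements, unless it is degenerate. -/
theorem card_le_of_det {n : ℕ} {Λ : Type*} [AddCommGroup Λ] (b : Basis (Fin n) ℤ Λ)
    (E : Finset Λ) (M : ℝ)
    (hdet : ∀ v : Fin n → Λ, (∀ i, v i ∈ E) → |(b.det v : ℝ)| ≤ M)
    (hne : ∃ v : Fin n → Λ, (∀ i, v i ∈ E) ∧ b.det v ≠ 0) : (E.card : ℝ) ≤ 5 ^ n * M := by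
  classical
  obtain ⟨v₀, hv₀, hv₀d⟩ := hne
  obtain ⟨v, hv, hmax⟩ := Finset.exists_max_image (Fintype.piFinset fun _ : Fin n => E)
    (fun v => |b.det v|) ⟨v₀, Fintype.mem_piFinset.2 hv₀⟩
  rw [Fintype.mem_piFinset] at hv
  have hvd : b.det v ≠ 0 := by
    intro h0
    have := hmax v₀ (Fintype.mem_piFinset.2 hv₀)
    rw [h0, abs_zero] at this
    exact hv₀d (abs_nonpos_iff.1 this)
  set D : ℤ := |b.det v| with hD
  have hD0 : 0 < D := abs_pos.2 hvd
  have : Module.Free ℤ Λ := Module.Free.of_basis b
  have : Module.Finite ℤ Λ := Module.Finite.of_basis b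
  -- Cramer
  have hcr : ∀ (c : Fin n → ℤ) (i : Fin n),
      b.det (Function.update v i (∑ j, c j • v j)) = c i * b.det v := by
    intro c i
    rw [AlternatingMap.map_update_sum]
    rw [Finset.sum_eq_single i]
    · rw [AlternatingMap.map_update_smul, Function.update_eq_self, smul_eq_mul]
    · intro j _ hji
      rw [AlternatingMap.map_update_smul]
      have : b.det (Function.update v i (v j)) = 0 := by
        refine b.det.map_eq_zero_of_eq _ (i := i) (j := j) ?_ hji.symm
        rw [Function.update_self, Function.update_of_ne hji]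
      rw [this, smul_zero]
    · intro h; exact absurd (Finset.mem_univ _) h
  have hli : LinearIndependent ℤ v := by
    rw [Fintype.linearIndependent_iff]
    intro c hc i
    have h1 := hcr c i
    rw [hc] at h1
    have h2 : b.det (Function.update v i 0) = 0 := b.det.map_coord_zero i (by simp)
    rw [h2] at h1
    rcases mul_eq_zero.1 h1.symm with h | h
    · exact h
    · exact absurd h hvd
  set N : Submodule ℤ Λ := Submodule.span ℤ (Set.range v) with hN
  have hcard : Nat.card (Λ ⧸ N) = D.natAbs := by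
    rw [← Submodule.natAbs_det_basis_change b N (Basis.span hli), hD, Int.natAbs_abs]
    congr 2
    ext i
    simp only [Function.comp_apply]
    exact Basis.coe_span_apply hli i
  have hfinq : Finite (Λ ⧸ N) := by
    apply Nat.finite_of_card_ne_zero
    rw [hcard]; omega
  have : Fintype (Λ ⧸ N) := Fintype.ofFinite _
  have hfib : ∀ y ∈ E.image (fun x => (Submodule.Quotient.mk x : Λ ⧸ N)),
      (E.filter fun x => (Submodule.Quotient.mk x : Λ ⧸ N) = y).card ≤ 5 ^ n := by
    intro y hy
    obtain ⟨y₀, hy₀, rfl⟩ := Finset.mem_image.1 hy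
    have hex : ∀ x : Λ, ∃ c : Fin n → ℤ, (Submodule.Quotient.mk x : Λ ⧸ N) =
        Submodule.Quotient.mk y₀ → x - y₀ = ∑ j, c j • v j := by
      intro x
      by_cases h : (Submodule.Quotient.mk x : Λ ⧸ N) = Submodule.Quotient.mk y₀
      · have h1 : x - y₀ ∈ N := (Submodule.Quotient.eq N).1 h
        rw [hN, Submodule.mem_span_range_iff_exists_fun] at h1
        obtain ⟨c, hc⟩ := h1
        exact ⟨c, fun _ => hc.symm⟩
      · exact ⟨0, fun h1 => absurd h1 h⟩
    choose c hc using hex
    have h5 : (5 : ℕ) ^ n = (Fintype.piFinset fun _ : Fin n => Finset.Icc (-2 : ℤ) 2).card := by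
      rw [Fintype.card_piFinset, Finset.prod_const, Finset.card_univ, Fintype.card_fin]
      rfl
    rw [h5]
    refine Finset.card_le_card_of_injOn c ?_ ?_
    · intro x hx
      have hx := Finset.mem_filter.1 (Finset.mem_coe.1 hx)
      rw [Finset.mem_coe, Fintype.mem_piFinset]
      intro i
      have h1 := hcr (c x) i
      rw [← hc x hx.2] at h1
      have h2 : b.det (Function.update v i (x - y₀)) =
          b.det (Function.update v i x) - b.det (Function.update v i y₀) :=
        AlternatingMap.map_update_sub _ _ _ _ _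
      rw [h2] at h1
      have h3 : ∀ z ∈ E, |b.det (Function.update v i z)| ≤ D := by
        intro z hz
        refine hmax _ (Fintype.mem_piFinset.2 fun j => ?_)
        by_cases hji : j = i
        · subst hji; rw [Function.update_self]; exact hz
        · rw [Function.update_of_ne hji]; exact hv j
      have h4 := h3 x hx.1
      have h5 := h3 y₀ hy₀
      have h6 : |c x i * b.det v| ≤ 2 * D := by
        rw [← h1]
        refine (abs_sub _ _).trans ?_
        linarith
      rw [abs_mul] at h6
      have h7 : |c x i| ≤ 2 := le_of_mul_le_mul_right h6 hD0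
      rw [Finset.mem_Icc]
      exact abs_le.1 h7
    · intro x hx x' hx' hxx'
      have hx := Finset.mem_filter.1 (Finset.mem_coe.1 hx)
      have hx' := Finset.mem_filter.1 (Finset.mem_coe.1 hx')
      have h1 := hc x hx.2
      have h2 := hc x' hx'.2
      rw [hxx', ← h2] at h1
      exact sub_left_injective h1
  have h1 := Finset.card_le_mul_card_image E (5 ^ n) hfib
  have h2 : (E.image (fun x => (Submodule.Quotient.mk x : Λ ⧸ N))).card ≤ D.natAbs := by
    rw [← hcard, Nat.card_eq_fintype_card]
    exact Finset.card_le_univ _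
  have h3 : E.card ≤ 5 ^ n * D.natAbs := h1.trans (Nat.mul_le_mul_left _ h2)
  have h4 : (E.card : ℝ) ≤ 5 ^ n * (D.natAbs : ℝ) := by exact_mod_cast h3
  refine h4.trans (mul_le_mul_of_nonneg_left ?_ (by positivity))
  have h5 : ((D.natAbs : ℕ) : ℝ) = |(b.det v : ℝ)| := by
    rw [Nat.cast_natAbs, hD, abs_abs]; push_cast; rfl
  rw [h5]
  exact hdet v hv

theorem exists_not_dvd {n : ℕ} {Λ : Type*} [AddCommGroup Λ] (b : Basis (Fin n) ℤ Λ)
    (E : Set Λ) (hE : Submodule.span ℤ E = ⊤) (p : ℕ) (hp : p.Prime) :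
    ∃ v : Fin n → Λ, (∀ i, v i ∈ E) ∧ ¬ (p : ℤ) ∣ b.det v := by
  by_contra hcon
  push Not at hcon
  let ψ : ℤ →ₗ[ℤ] ZMod p := (Int.castAddHom (ZMod p)).toIntLinearMap
  let φ : MultilinearMap ℤ (fun _ : Fin n => Λ) (ZMod p) :=
    ψ.compMultilinearMap b.det.toMultilinearMap
  have hφ : φ = 0 := by
    refine MultilinearMap.ext_of_span_eq_top (g := fun _ : Fin n => (Subtype.val : E → Λ)) ?_ ?_
    · intro i
      rw [Subtype.range_coe]; exact hE
    · intro j
      have h1 := hcon (fun i => (j i : Λ)) (fun i => (j i).2)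
      change ((b.det fun i => (j i : Λ) : ℤ) : ZMod p) = 0
      rw [ZMod.intCast_zmod_eq_zero_iff_dvd]
      exact_mod_cast h1
  have h2 : φ b = 0 := by rw [hφ]; rfl
  have h3 : ((b.det b : ℤ) : ZMod p) = 0 := h2
  rw [Basis.det_self] at h3
  have : Fact p.Prime := ⟨hp⟩
  simp at h3

end Pool.Agent.W226.VQ
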