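import Mathlib
import Pool.Agent.W226.VQ.Lat

set_option autoImplicit false

namespace Pool.Agent.W226.VQ

open Module Finset

/-- the `p`-adic absolute value of an integer -/
noncomputable def av (p : ℕ) (n : ℤ) : ℝ := ((padicNorm p (n : ℚ) : ℚ) : ℝ)

lemma av_mul (p : ℕ) (hp : p.Prime) (m n : ℤ) : av p (m * n) = av p m * av p n := by
  have : Fact p.Prime := ⟨hp⟩
  unfold av
  push_cast
  rw [padicNorm.mul]; push_cast; rfl

lemma av_nonneg (p : ℕ) (n : ℤ) : 0 ≤ av p n := by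
  unfold av
  exact_mod_cast padicNorm.nonneg _

lemma av_pos (p : ℕ) (hp : p.Prime) {n : ℤ} (hn : n ≠ 0) : 0 < av p n := by
  have : Fact p.Prime := ⟨hp⟩
  refine lt_of_le_of_ne (av_nonneg p n) ?_
  unfold av
  intro h
  have h1 : padicNorm p (n : ℚ) = 0 := by exact_mod_cast h.symm
  exact hn (by exact_mod_cast padicNorm.zero_of_padicNorm_eq_zero h1)

lemma av_le_one (p : ℕ) (hp : p.Prime) (n : ℤ) : av p n ≤ 1 := by
  have : Fact p.Prime := ⟨hp⟩
  unfold av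
  exact_mod_cast padicNorm.of_int n

lemma av_eq_one (p : ℕ) (hp : p.Prime) {n : ℤ} (hn : ¬ (p : ℤ) ∣ n) : av p n = 1 := by
  have : Fact p.Prime := ⟨hp⟩
  unfold av
  exact_mod_cast (padicNorm.int_eq_one_iff n).2 hn

lemma av_eq (p : ℕ) (hp : p.Prime) {n : ℤ} (hn : n ≠ 0) :
    av p n = ((p : ℝ) ^ padicValInt p n)⁻¹ := by
  have : Fact p.Prime := ⟨hp⟩
  unfold av
  rw [padicNorm.eq_zpow_of_nonzero (by exact_mod_cast hn), padicValRat.of_int]
  push_cast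
  rw [zpow_neg, zpow_natCast]

lemma prod_formula (S : Finset ℕ) (hS : ∀ p ∈ S, p.Prime) (n : ℤ) (hn : n ≠ 0) :
    1 ≤ |(n : ℝ)| * ∏ p ∈ S, av p n := by
  have h1 : ∏ p ∈ S, av p n = ((∏ p ∈ S, p ^ padicValInt p n : ℕ) : ℝ)⁻¹ := by
    push_cast
    rw [← Finset.prod_inv_distrib]
    exact Finset.prod_congr rfl fun p hp => av_eq p (hS p hp) hn
  have h2 : (((∏ p ∈ S, p ^ padicValInt p n : ℕ)) : ℤ) ∣ n := by
    push_cast
    refine Finset.prod_dvd_of_coprime ?_ fun p hp => ?_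
    · intro p hp p' hp' hne
      have := (Nat.coprime_primes (hS p hp) (hS p' hp')).2 hne
      exact (Nat.isCoprime_iff_coprime.2 this).pow
    · exact padicValInt_dvd _
  have h3 : (∏ p ∈ S, p ^ padicValInt p n) ≤ n.natAbs :=
    Nat.le_of_dvd (Int.natAbs_pos.2 hn) (Int.natCast_dvd.1 h2)
  have h4 : (0 : ℝ) < ((∏ p ∈ S, p ^ padicValInt p n : ℕ) : ℝ) := by
    have : 0 < ∏ p ∈ S, p ^ padicValInt p n :=
      Finset.prod_pos fun p hp => pow_pos (hS p hp).pos _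
    exact_mod_cast this
  rw [h1, ← div_eq_mul_inv, le_div_iff₀ h4, one_mul]
  have h5 : |(n : ℝ)| = (n.natAbs : ℝ) := by rw [Nat.cast_natAbs]; push_cast; rfl
  rw [h5]
  exact_mod_cast h3

lemma prod_formula' (S : Finset ℕ) (hS : ∀ p ∈ S, p.Prime) (n : ℤ) (hn : n ≠ 0) (T : ℕ → ℝ)
    (hT : ∀ p ∈ S, av p n ≤ T p) : 1 ≤ |(n : ℝ)| * ∏ p ∈ S, T p :=
  (prod_formula S hS n hn).trans (mul_le_mul_of_nonneg_left
    (Finset.prod_le_prod (fun p _ => av_nonneg p n) hT) (abs_nonneg _))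

/-- The count of the forms in one class. -/
theorem key (S : Finset ℕ) (hS : ∀ p ∈ S, p.Prime) (T₀ T₀' : ℝ) (T T' : ℕ → ℝ)
    (hT₀ : 0 ≤ T₀) (hT₀' : 0 ≤ T₀') (hT : ∀ p, 0 ≤ T p) (hT' : ∀ p, 0 ≤ T' p)
    (E : Finset (Fin 3 → ℤ)) (h1 : ∀ f ∈ E, ∀ g ∈ E, f ≠ g → res f g ≠ 0)
    (h2 : ∀ f ∈ E, ∀ g ∈ E, |((res f g : ℤ) : ℝ)| ≤ T₀)
    (h3 : ∀ p ∈ S, ∀ f ∈ E, ∀ g ∈ E, av p (res f g) ≤ T p)
    (h4 : ∀ f ∈ E, ∀ g ∈ E, ∀ h ∈ E, |((det3 f g h : ℤ) : ℝ)| ≤ T₀')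
    (h5 : ∀ p ∈ S, ∀ f ∈ E, ∀ g ∈ E, ∀ h ∈ E, av p (det3 f g h) ≤ T' p) :
    (E.card : ℝ) ≤ 1 + 25 * Real.sqrt (T₀ * ∏ p ∈ S, T p) + 125 * (T₀' * ∏ p ∈ S, T' p) := by
  classical
  have hpT : 0 ≤ ∏ p ∈ S, T p := Finset.prod_nonneg fun p _ => hT p
  have hpT' : 0 ≤ ∏ p ∈ S, T' p := Finset.prod_nonneg fun p _ => hT' p
  have hs0 : 0 ≤ Real.sqrt (T₀ * ∏ p ∈ S, T p) := Real.sqrt_nonneg _
  have hs1 : 0 ≤ T₀' * ∏ p ∈ S, T' p := mul_nonneg hT₀' hpT'
  by_cases hcard : E.card ≤ 1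
  · have : (E.card : ℝ) ≤ 1 := by exact_mod_cast hcard
    linarith
  push Not at hcard
  obtain ⟨f₀, hf₀, g₀, hg₀, hfg₀⟩ := Finset.one_lt_card.1 hcard
  -- the lattice generated by `E`
  set Λ : Submodule ℤ (Fin 3 → ℤ) := Submodule.span ℤ (E : Set (Fin 3 → ℤ)) with hΛ
  obtain ⟨n, ⟨b⟩⟩ := Submodule.nonempty_basis_of_pid (Pi.basisFun ℤ (Fin 3)) Λ
  have hn3 : n ≤ 3 := by
    have h6 : LinearIndependent ℤ (fun i => ((b i : Λ) : Fin 3 → ℤ)) :=
      b.linearIndependent.map' Λ.subtype (Submodule.ker_subtype _)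
    have := h6.fintype_card_le_finrank
    simpa using this
  set E' : Finset Λ := E.attach.image (fun f => (⟨f.1, Submodule.subset_span f.2⟩ : Λ)) with hE'
  have hE'mem : ∀ x : Λ, x ∈ E' ↔ (x : Fin 3 → ℤ) ∈ E := by
    intro x
    rw [hE', Finset.mem_image]
    constructor
    · rintro ⟨f, _, rfl⟩; exact f.2
    · intro hx; exact ⟨⟨x, hx⟩, Finset.mem_attach _ _, rfl⟩
  have hE'card : E'.card = E.card := by
    rw [hE', Finset.card_image_of_injective, Finset.card_attach]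
    intro f g hfg
    have := congrArg (fun z : Λ => (z : Fin 3 → ℤ)) hfg
    exact Subtype.ext this
  have hspan : Submodule.span ℤ (E' : Set Λ) = ⊤ := by
    have h6 := Submodule.span_span_coe_preimage (R := ℤ) (s := (E : Set (Fin 3 → ℤ)))
    have h7 : (E' : Set Λ) = ((↑) : Submodule.span ℤ (E : Set (Fin 3 → ℤ)) → Fin 3 → ℤ) ⁻¹'
        (E : Set (Fin 3 → ℤ)) := by
      ext x
      rw [Set.mem_preimage, Finset.mem_coe, Finset.mem_coe]
      exact hE'mem x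
    rw [h7]; exact h6
  rw [← hE'card]
  -- the coordinates
  have hrepr : ∀ x : Λ, (x : Fin 3 → ℤ) = ∑ i, b.repr x i • ((b i : Λ) : Fin 3 → ℤ) := by
    intro x
    conv_lhs => rw [← b.sum_repr x]
    rw [AddSubmonoidClass.coe_finsetSum]
    rfl
  interval_cases n
  · -- rank 0
    exfalso
    have h6 : ∀ x ∈ E, x = 0 := by
      intro x hx
      have := hrepr ⟨x, Submodule.subset_span hx⟩
      simpa using this
    exact hfg₀ ((h6 _ hf₀).trans (h6 _ hg₀).symm)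
  · -- rank 1
    exfalso
    have e1 := hrepr ⟨f₀, Submodule.subset_span hf₀⟩
    have e2 := hrepr ⟨g₀, Submodule.subset_span hg₀⟩
    rw [Fin.sum_univ_one] at e1 e2
    simp only at e1 e2
    refine h1 _ hf₀ _ hg₀ hfg₀ ?_
    rw [e1, e2]
    unfold res
    simp only [Pi.smul_apply, smul_eq_mul]
    ring
  · -- rank 2
    set R₀ : ℤ := res ((b 0 : Λ) : Fin 3 → ℤ) ((b 1 : Λ) : Fin 3 → ℤ) with hR₀
    have hresdet : ∀ v : Fin 2 → Λ, res (v 0 : Fin 3 → ℤ) (v 1 : Fin 3 → ℤ) = b.det v ^ 2 * R₀ := by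
      intro v
      have e1 := hrepr (v 0)
      have e2 := hrepr (v 1)
      rw [Fin.sum_univ_two] at e1 e2
      rw [Basis.det_apply, Matrix.det_fin_two]
      simp only [Basis.toMatrix_apply]
      have e3 : (v 0 : Fin 3 → ℤ) = fun i => b.repr (v 0) 0 * (b 0 : Λ).1 i +
          b.repr (v 0) 1 * (b 1 : Λ).1 i := by
        funext i
        have := congrFun e1 i
        simpa using this
      have e4 : (v 1 : Fin 3 → ℤ) = fun i => b.repr (v 1) 0 * (b 0 : Λ).1 i +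
          b.repr (v 1) 1 * (b 1 : Λ).1 i := by
        funext i
        have := congrFun e2 i
        simpa using this
      rw [e3, e4, res_comb]
      ring
    have hv₀ : ∃ v : Fin 2 → Λ, (∀ i, v i ∈ E') ∧ b.det v ≠ 0 := by
      refine ⟨![⟨f₀, Submodule.subset_span hf₀⟩, ⟨g₀, Submodule.subset_span hg₀⟩], ?_, ?_⟩
      · intro i
        fin_cases i
        · exact (hE'mem _).2 hf₀
        · exact (hE'mem _).2 hg₀
      · intro h0
        have := hresdet ![⟨f₀, Submodule.subset_span hf₀⟩, ⟨g₀, Submodule.subset_span hg₀⟩]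
        rw [h0] at this
        exact h1 _ hf₀ _ hg₀ hfg₀ (by simpa using this)
    have hR₀0 : R₀ ≠ 0 := by
      intro h0
      have := hresdet ![⟨f₀, Submodule.subset_span hf₀⟩, ⟨g₀, Submodule.subset_span hg₀⟩]
      rw [h0] at this
      exact h1 _ hf₀ _ hg₀ hfg₀ (by simpa using this)
    have hR₀p : ∀ p ∈ S, av p R₀ ≤ T p := by
      intro p hp
      obtain ⟨v, hv, hvp⟩ := exists_not_dvd b (E' : Set Λ) hspan p (hS p hp)
      have h6 := h3 p hp _ ((hE'mem _).1 (hv 0)) _ ((hE'mem _).1 (hv 1))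
      rw [hresdet v, pow_two, av_mul p (hS p hp), av_mul p (hS p hp), av_eq_one p (hS p hp) hvp,
        one_mul, one_mul] at h6
      exact h6
    have h7 := prod_formula' S hS R₀ hR₀0 T hR₀p
    have h8 := card_le_of_det b E' (Real.sqrt (T₀ * ∏ p ∈ S, T p)) (fun v hv => by
      refine Real.le_sqrt_of_sq_le ?_
      have h9 := h2 _ ((hE'mem _).1 (hv 0)) _ ((hE'mem _).1 (hv 1))
      rw [hresdet v] at h9
      push_cast at h9
      rw [abs_mul, abs_pow] at h9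
      have h10 : |(b.det v : ℝ)| ^ 2 ≤ |(b.det v : ℝ)| ^ 2 * (|(R₀ : ℝ)| * ∏ p ∈ S, T p) :=
        le_mul_of_one_le_right (by positivity) h7
      calc |(b.det v : ℝ)| ^ 2 ≤ |(b.det v : ℝ)| ^ 2 * (|(R₀ : ℝ)| * ∏ p ∈ S, T p) := h10
        _ = (|(b.det v : ℝ)| ^ 2 * |(R₀ : ℝ)|) * ∏ p ∈ S, T p := by ring
        _ ≤ T₀ * ∏ p ∈ S, T p := mul_le_mul_of_nonneg_right h9 hpT) hv₀
    norm_num at h8
    linarith
  · -- rank 3
    set R₀ : ℤ := det3 ((b 0 : Λ) : Fin 3 → ℤ) ((b 1 : Λ) : Fin 3 → ℤ) ((b 2 : Λ) : Fin 3 → ℤ)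
      with hR₀
    have hresdet : ∀ v : Fin 3 → Λ, det3 (v 0 : Fin 3 → ℤ) (v 1 : Fin 3 → ℤ) (v 2 : Fin 3 → ℤ) =
        b.det v * R₀ := by
      intro v
      have e1 := hrepr (v 0)
      have e2 := hrepr (v 1)
      have e3 := hrepr (v 2)
      rw [Fin.sum_univ_three] at e1 e2 e3
      rw [Basis.det_apply, Matrix.det_fin_three]
      simp only [Basis.toMatrix_apply]
      rw [hR₀]
      unfold det3
      have c1 : ∀ i, (v 0).1 i = b.repr (v 0) 0 * (b 0 : Λ).1 i + b.repr (v 0) 1 * (b 1 : Λ).1 i +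
          b.repr (v 0) 2 * (b 2 : Λ).1 i := fun i => by simpa using congrFun e1 i
      have c2 : ∀ i, (v 1).1 i = b.repr (v 1) 0 * (b 0 : Λ).1 i + b.repr (v 1) 1 * (b 1 : Λ).1 i +
          b.repr (v 1) 2 * (b 2 : Λ).1 i := fun i => by simpa using congrFun e2 i
      have c3 : ∀ i, (v 2).1 i = b.repr (v 2) 0 * (b 0 : Λ).1 i + b.repr (v 2) 1 * (b 1 : Λ).1 i +
          b.repr (v 2) 2 * (b 2 : Λ).1 i := fun i => by simpa using congrFun e3 i
      rw [c1 0, c1 1, c1 2, c2 0, c2 1, c2 2, c3 0, c3 1, c3 2]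
      ring
    have hR₀0 : R₀ ≠ 0 := by
      intro h0
      have h6 : LinearIndependent ℤ (fun i => ((b i : Λ) : Fin 3 → ℤ)) :=
        b.linearIndependent.map' Λ.subtype (Submodule.ker_subtype _)
      have h7 : (Matrix.of fun i => ((b i : Λ) : Fin 3 → ℤ)).det = 0 := by
        rw [Matrix.det_fin_three]
        rw [hR₀] at h0
        unfold det3 at h0
        simp only [Matrix.of_apply]
        linarith
      obtain ⟨c, hc0, hc⟩ := Matrix.exists_vecMul_eq_zero_iff.2 h7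
      rw [Fintype.linearIndependent_iff] at h6
      refine hc0 (funext fun i => h6 c ?_ i)
      funext k
      have := congrFun hc k
      simp only [Matrix.vecMul, dotProduct, Matrix.of_apply, Pi.zero_apply] at this
      simpa using this
    have hR₀p : ∀ p ∈ S, av p R₀ ≤ T' p := by
      intro p hp
      obtain ⟨v, hv, hvp⟩ := exists_not_dvd b (E' : Set Λ) hspan p (hS p hp)
      have h6 := h5 p hp _ ((hE'mem _).1 (hv 0)) _ ((hE'mem _).1 (hv 1)) _ ((hE'mem _).1 (hv 2))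
      rw [hresdet v, av_mul p (hS p hp), av_eq_one p (hS p hp) hvp, one_mul] at h6
      exact h6
    have h7 := prod_formula' S hS R₀ hR₀0 T' hR₀p
    have h8 := card_le_of_det b E' (T₀' * ∏ p ∈ S, T' p) (fun v hv => by
      have h9 := h4 _ ((hE'mem _).1 (hv 0)) _ ((hE'mem _).1 (hv 1)) _ ((hE'mem _).1 (hv 2))
      rw [hresdet v] at h9
      push_cast at h9
      rw [abs_mul] at h9
      have h10 : |(b.det v : ℝ)| ≤ |(b.det v : ℝ)| * (|(R₀ : ℝ)| * ∏ p ∈ S, T' p) :=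
        le_mul_of_one_le_right (by positivity) h7
      calc |(b.det v : ℝ)| ≤ |(b.det v : ℝ)| * (|(R₀ : ℝ)| * ∏ p ∈ S, T' p) := h10
        _ = (|(b.det v : ℝ)| * |(R₀ : ℝ)|) * ∏ p ∈ S, T' p := by ring
        _ ≤ T₀' * ∏ p ∈ S, T' p := mul_le_mul_of_nonneg_right h9 hpT') (by
      obtain ⟨v, hv, hvp⟩ := exists_not_dvd b (E' : Set Λ) hspan 2 Nat.prime_two
      exact ⟨v, hv, fun h0 => hvp (by rw [h0]; exact dvd_zero _)⟩)
    norm_num at h8
    linarith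

end Pool.Agent.W226.VQ
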