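import Mathlib
import Pool.Agent.W226.VQ.Alg

set_option autoImplicit false

namespace Pool.Agent.W226.VQ

section est
variable {F : Type*} [NormedField F]

lemma nsub (x y : F) : ‖x - y‖ ≤ ‖x‖ + ‖y‖ := norm_sub_le x y

lemma norm_two_le : ‖(2 : F)‖ ≤ 2 := by
  have h : (2 : F) = 1 + 1 := by norm_num
  rw [h]
  refine (norm_add_le _ _).trans ?_
  rw [norm_one]; norm_num

lemma norm_four_le : ‖(4 : F)‖ ≤ 4 := by
  have h : (4 : F) = 2 * 2 := by norm_num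
  rw [h, norm_mul]
  have := norm_two_le (F := F)
  have h0 := norm_nonneg (2 : F)
  nlinarith

lemma cross_le {x y x' y' : F} {a c : ℝ} (hx : ‖x‖ ≤ a) (hx' : ‖x'‖ ≤ a) (hy : ‖y‖ ≤ c)
    (hy' : ‖y'‖ ≤ c) : ‖x * y' - y * x'‖ ≤ 2 * (a * c) := by
  have ha : 0 ≤ a := (norm_nonneg _).trans hx
  have hc : 0 ≤ c := (norm_nonneg _).trans hy
  refine (nsub _ _).trans ?_
  rw [norm_mul, norm_mul]
  have h1 := mul_le_mul hx hy' (norm_nonneg _) ha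
  have h2 := mul_le_mul hy hx' (norm_nonneg _) hc
  nlinarith

/-- the resultant in adapted coordinates -/
lemma res_le {C B A C' B' A' : F} {a b c : ℝ} (hA : ‖A‖ ≤ a) (hA' : ‖A'‖ ≤ a) (hB : ‖B‖ ≤ b)
    (hB' : ‖B'‖ ≤ b) (hC : ‖C‖ ≤ c) (hC' : ‖C'‖ ≤ c) :
    ‖(C * A' - A * C') ^ 2 - (C * B' - B * C') * (B * A' - A * B')‖ ≤
      4 * (a * c) * (a * c + b ^ 2) := by
  have h1 := cross_le hC hC' hA hA'
  have h2 := cross_le hC hC' hB hB'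
  have h3 := cross_le hB hB' hA hA'
  refine (nsub _ _).trans ?_
  rw [norm_pow, norm_mul]
  have h4 : ‖C * A' - A * C'‖ ^ 2 ≤ (2 * (c * a)) ^ 2 := pow_le_pow_left₀ (norm_nonneg _) h1 2
  have hb : 0 ≤ b := (norm_nonneg _).trans hB
  have hc : 0 ≤ c := (norm_nonneg _).trans hC
  have h5 := mul_le_mul h2 h3 (norm_nonneg _) (by positivity)
  nlinarith

lemma det_le {C B A C' B' A' C'' B'' A'' : F} {a b c : ℝ} (hA : ‖A‖ ≤ a) (hA' : ‖A'‖ ≤ a)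
    (hA'' : ‖A''‖ ≤ a) (hB : ‖B‖ ≤ b) (hB' : ‖B'‖ ≤ b) (hB'' : ‖B''‖ ≤ b) (hC : ‖C‖ ≤ c)
    (hC' : ‖C'‖ ≤ c) (hC'' : ‖C''‖ ≤ c) :
    ‖det3 ![C, B, A] ![C', B', A'] ![C'', B'', A'']‖ ≤ 6 * (a * c) * b := by
  have ha : 0 ≤ a := (norm_nonneg _).trans hA
  have hb : 0 ≤ b := (norm_nonneg _).trans hB
  have hc : 0 ≤ c := (norm_nonneg _).trans hC
  unfold det3
  simp only [Matrix.cons_val_zero, Matrix.cons_val_one, Matrix.cons_val]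
  have h1 : ‖C * (B' * A'' - A' * B'')‖ ≤ c * (2 * (b * a)) := by
    rw [norm_mul]
    exact mul_le_mul hC (cross_le hB' hB'' hA' hA'') (norm_nonneg _) hc
  have h2 : ‖B * (C' * A'' - A' * C'')‖ ≤ b * (2 * (c * a)) := by
    rw [norm_mul]
    exact mul_le_mul hB (cross_le hC' hC'' hA' hA'') (norm_nonneg _) hb
  have h3 : ‖A * (C' * B'' - B' * C'')‖ ≤ a * (2 * (c * b)) := by
    rw [norm_mul]
    exact mul_le_mul hA (cross_le hC' hC'' hB' hB'') (norm_nonneg _) ha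
  have h4 := norm_add_le (C * (B' * A'' - A' * B'') - B * (C' * A'' - A' * C''))
    (A * (C' * B'' - B' * C''))
  have h5 := nsub (C * (B' * A'' - A' * B'')) (B * (C' * A'' - A' * C''))
  have h6 : 6 * (a * c) * b = c * (2 * (b * a)) + b * (2 * (c * a)) + a * (2 * (c * b)) := by ring
  rw [h6]
  linarith

/-- one of `B - w`, `B + w` is small, if `w ^ 2 = B ^ 2 - 4 A C` -/
lemma exists_sign [CharZero F] {A B C w : F} (hB : B ≠ 0) (hw : w ^ 2 = B ^ 2 - 4 * C * A) :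
    ∃ e : Bool, ‖B - (if e then w else -w)‖ ≤ 4 * (‖A‖ * ‖C‖) / ‖B‖ := by
  have hB0 : 0 < ‖B‖ := norm_pos_iff.2 hB
  have h2 : (0 : ℝ) < ‖(2 : F)‖ := norm_pos_iff.2 two_ne_zero
  have h1 : (B - w) * (B + w) = 4 * C * A := by linear_combination -hw
  have h3 : ‖B - w‖ * ‖B + w‖ = ‖(2 : F)‖ ^ 2 * (‖A‖ * ‖C‖) := by
    rw [← norm_mul, h1, norm_mul, norm_mul, show (4 : F) = 2 * 2 by norm_num, norm_mul]; ring
  have h4 : ‖(2 : F)‖ * ‖B‖ ≤ ‖B - w‖ + ‖B + w‖ := by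
    rw [← norm_mul, show (2 : F) * B = (B - w) + (B + w) by ring]
    exact norm_add_le _ _
  have h5 := norm_two_le (F := F)
  have hAC : 0 ≤ ‖A‖ * ‖C‖ := by positivity
  rcases le_total ‖B - w‖ ‖B + w‖ with h | h
  · refine ⟨true, ?_⟩
    simp only [if_true]
    rw [le_div_iff₀ hB0]
    have h6 : ‖(2 : F)‖ * ‖B‖ ≤ 2 * ‖B + w‖ := by linarith
    have h7 : ‖B - w‖ * (‖(2 : F)‖ * ‖B‖) ≤ ‖(2 : F)‖ * (4 * (‖A‖ * ‖C‖)) := by
      calc ‖B - w‖ * (‖(2 : F)‖ * ‖B‖) ≤ ‖B - w‖ * (2 * ‖B + w‖) :=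
            mul_le_mul_of_nonneg_left h6 (norm_nonneg _)
        _ = 2 * (‖(2 : F)‖ * (‖(2 : F)‖ * (‖A‖ * ‖C‖))) := by linear_combination 2 * h3
        _ ≤ 2 * (‖(2 : F)‖ * (2 * (‖A‖ * ‖C‖))) := by gcongr
        _ = _ := by ring
    have h8 : ‖(2 : F)‖ * (‖B - w‖ * ‖B‖) ≤ ‖(2 : F)‖ * (4 * (‖A‖ * ‖C‖)) := by linarith
    exact le_of_mul_le_mul_left h8 h2
  · refine ⟨false, ?_⟩
    simp only [if_false, sub_neg_eq_add, Bool.false_eq_true]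
    rw [le_div_iff₀ hB0]
    have h6 : ‖(2 : F)‖ * ‖B‖ ≤ 2 * ‖B - w‖ := by linarith
    have h7 : ‖B + w‖ * (‖(2 : F)‖ * ‖B‖) ≤ ‖(2 : F)‖ * (4 * (‖A‖ * ‖C‖)) := by
      calc ‖B + w‖ * (‖(2 : F)‖ * ‖B‖) ≤ ‖B + w‖ * (2 * ‖B - w‖) :=
            mul_le_mul_of_nonneg_left h6 (norm_nonneg _)
        _ = 2 * (‖(2 : F)‖ * (‖(2 : F)‖ * (‖A‖ * ‖C‖))) := by linear_combination 2 * h3
        _ ≤ 2 * (‖(2 : F)‖ * (2 * (‖A‖ * ‖C‖))) := by gcongr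
        _ = _ := by ring
    have h8 : ‖(2 : F)‖ * (‖B + w‖ * ‖B‖) ≤ ‖(2 : F)‖ * (4 * (‖A‖ * ‖C‖)) := by linarith
    exact le_of_mul_le_mul_left h8 h2

/-- the linear factor of the resultant, well separated case. Here `w`, `w'` are the signed square
roots of the discriminants. -/
lemma lin_le {C B A C' B' A' w w' : F} {a b c e : ℝ} (he : 1 ≤ e) (hA : ‖A‖ ≤ a) (hA' : ‖A'‖ ≤ a)
    (hB : ‖B‖ ≤ b) (hB' : ‖B'‖ ≤ b) (hC : ‖C‖ ≤ c) (hC' : ‖C'‖ ≤ c) (hb : 0 < b)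
    (hBl : b ≤ e * ‖B‖) (hBl' : b ≤ e * ‖B'‖) (hac : a * c ≤ b ^ 2)
    (hw : ‖B - w‖ ≤ 4 * (‖A‖ * ‖C‖) / ‖B‖) (hw' : ‖B' - w'‖ ≤ 4 * (‖A'‖ * ‖C'‖) / ‖B'‖)
    (hww : w' ^ 2 = B' ^ 2 - 4 * C' * A') :
    ‖(B * B' - 2 * C * A' - 2 * A * C') - w * w'‖ ≤ 20 * e * (a * c) := by
  have ha : 0 ≤ a := (norm_nonneg _).trans hA
  have hc : 0 ≤ c := (norm_nonneg _).trans hC
  have hac0 : 0 ≤ a * c := mul_nonneg ha hc
  have hB0 : 0 < ‖B‖ := by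
    by_contra h
    have : ‖B‖ = 0 := le_antisymm (not_lt.1 h) (norm_nonneg _)
    rw [this] at hBl; linarith
  have hB0' : 0 < ‖B'‖ := by
    by_contra h
    have : ‖B'‖ = 0 := le_antisymm (not_lt.1 h) (norm_nonneg _)
    rw [this] at hBl'; linarith
  have h1 : ‖B - w‖ ≤ 4 * e * (a * c) / b := by
    refine hw.trans ?_
    rw [div_le_div_iff₀ hB0 hb]
    have h2 : ‖A‖ * ‖C‖ ≤ a * c := mul_le_mul hA hC (norm_nonneg _) ha
    calc 4 * (‖A‖ * ‖C‖) * b ≤ 4 * (a * c) * (e * ‖B‖) := by gcongr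
      _ = _ := by ring
  have h1' : ‖B' - w'‖ ≤ 4 * e * (a * c) / b := by
    refine hw'.trans ?_
    rw [div_le_div_iff₀ hB0' hb]
    have h2 : ‖A'‖ * ‖C'‖ ≤ a * c := mul_le_mul hA' hC' (norm_nonneg _) ha
    calc 4 * (‖A'‖ * ‖C'‖) * b ≤ 4 * (a * c) * (e * ‖B'‖) := by gcongr
      _ = _ := by ring
  -- the size of `w'`
  have h3 : ‖w'‖ ≤ 3 * b := by
    have h4 : ‖w'‖ ^ 2 ≤ (3 * b) ^ 2 := by
      rw [← norm_pow, hww]
      refine (nsub _ _).trans ?_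
      rw [norm_pow, norm_mul, norm_mul]
      have h5 : ‖B'‖ ^ 2 ≤ b ^ 2 := pow_le_pow_left₀ (norm_nonneg _) hB' 2
      have h6 : ‖(4 : F)‖ * ‖C'‖ * ‖A'‖ ≤ 4 * c * a := by
        have := norm_four_le (F := F)
        gcongr
      nlinarith
    exact (pow_le_pow_iff_left₀ (norm_nonneg _) (by positivity) (by norm_num)).1 h4
  have h7 : (B * B' - 2 * C * A' - 2 * A * C') - w * w' =
      B * (B' - w') + (B - w) * w' - 2 * C * A' - 2 * A * C' := by ring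
  rw [h7]
  have h8 : ‖B * (B' - w')‖ ≤ 4 * e * (a * c) := by
    rw [norm_mul]
    calc ‖B‖ * ‖B' - w'‖ ≤ b * (4 * e * (a * c) / b) := by gcongr
      _ = _ := by field_simp
  have h9 : ‖(B - w) * w'‖ ≤ 12 * e * (a * c) := by
    rw [norm_mul]
    calc ‖B - w‖ * ‖w'‖ ≤ (4 * e * (a * c) / b) * (3 * b) := by gcongr
      _ = _ := by field_simp; ring
  have h2n := norm_two_le (F := F)
  have h10 : ‖2 * C * A'‖ ≤ 2 * (a * c) := by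
    rw [norm_mul, norm_mul]
    calc ‖(2 : F)‖ * ‖C‖ * ‖A'‖ ≤ 2 * c * a := by gcongr
      _ = _ := by ring
  have h11 : ‖2 * A * C'‖ ≤ 2 * (a * c) := by
    rw [norm_mul, norm_mul]
    calc ‖(2 : F)‖ * ‖A‖ * ‖C'‖ ≤ 2 * a * c := by gcongr
      _ = _ := by ring
  have h12 := nsub (B * (B' - w') + (B - w) * w' - 2 * C * A') (2 * A * C')
  have h13 := nsub (B * (B' - w') + (B - w) * w') (2 * C * A')
  have h14 := norm_add_le (B * (B' - w')) ((B - w) * w')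
  nlinarith

/-- the linear factor of the resultant, badly separated case. -/
lemma lin_le' {C B A C' B' A' w w' : F} {a b c M : ℝ} (hM : 1 ≤ M) (hA : ‖A‖ ≤ a) (hA' : ‖A'‖ ≤ a)
    (hB : ‖B‖ ≤ b) (hB' : ‖B'‖ ≤ b) (hC : ‖C‖ ≤ c) (hC' : ‖C'‖ ≤ c) (hb : b ^ 2 ≤ M * (a * c))
    (hw : w ^ 2 = B ^ 2 - 4 * C * A) (hww : w' ^ 2 = B' ^ 2 - 4 * C' * A') :
    ‖(B * B' - 2 * C * A' - 2 * A * C') - w * w'‖ ≤ 10 * M * (a * c) := by
  have ha : 0 ≤ a := (norm_nonneg _).trans hA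
  have hc : 0 ≤ c := (norm_nonneg _).trans hC
  have hac0 : 0 ≤ a * c := mul_nonneg ha hc
  have key : ∀ {C B A w : F}, ‖A‖ ≤ a → ‖B‖ ≤ b → ‖C‖ ≤ c → w ^ 2 = B ^ 2 - 4 * C * A →
      ‖w‖ ^ 2 ≤ 5 * M * (a * c) := by
    intro C B A w hA hB hC hw
    rw [← norm_pow, hw]
    refine (nsub _ _).trans ?_
    rw [norm_pow, norm_mul, norm_mul]
    have h5 : ‖B‖ ^ 2 ≤ b ^ 2 := pow_le_pow_left₀ (norm_nonneg _) hB 2
    have h6 : ‖(4 : F)‖ * ‖C‖ * ‖A‖ ≤ 4 * c * a := by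
      have := norm_four_le (F := F)
      gcongr
    nlinarith
  have h1 := key hA hB hC hw
  have h2 := key hA' hB' hC' hww
  have h3 : ‖w * w'‖ ≤ 5 * M * (a * c) := by
    rw [norm_mul]
    nlinarith [sq_nonneg (‖w‖ - ‖w'‖)]
  have h4 : ‖B * B'‖ ≤ M * (a * c) := by
    rw [norm_mul]
    have h0 := norm_nonneg B
    have h0' := norm_nonneg B'
    have : ‖B‖ * ‖B'‖ ≤ b * b := mul_le_mul hB hB' h0' (h0.trans hB)
    nlinarith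
  have h2n := norm_two_le (F := F)
  have h10 : ‖2 * C * A'‖ ≤ 2 * (a * c) := by
    rw [norm_mul, norm_mul]
    calc ‖(2 : F)‖ * ‖C‖ * ‖A'‖ ≤ 2 * c * a := by gcongr
      _ = _ := by ring
  have h11 : ‖2 * A * C'‖ ≤ 2 * (a * c) := by
    rw [norm_mul, norm_mul]
    calc ‖(2 : F)‖ * ‖A‖ * ‖C'‖ ≤ 2 * a * c := by gcongr
      _ = _ := by ring
  have h12 := nsub (B * B' - 2 * C * A' - 2 * A * C') (w * w')
  have h13 := nsub (B * B' - 2 * C * A') (2 * A * C')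
  have h14 := nsub (B * B') (2 * C * A')
  nlinarith

end est

end Pool.Agent.W226.VQ
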