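import Mathlib
import Pool.Agent.W226.VQ.Loc
import Pool.Agent.H990R4.VJ.N

set_option autoImplicit false

namespace Pool.Agent.W226.VQ

open Polynomial Finset Pool.Agent.H990R4.VJ.Red

section

variable {F : Type*} [NormedField F]

/-- the vector of the three coefficients -/
def cv (f : ℤ[X]) : Fin 3 → ℤ := fun i => f.coeff i

/-- the coefficients in the field -/
noncomputable def cf (F : Type*) [NormedField F] (f : ℤ[X]) : Fin 3 → F := fun i => (f.coeff i : F)

lemma fm_eq_ev (f : ℤ[X]) (P : F × F) : fm 2 f P = ev (cf F f) P := by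
  unfold fm ev cf
  rw [Fin.sum_univ_three]
  simp only [Fin.val_zero, Fin.val_one, Fin.val_two, Fin.val_rev]
  norm_num

lemma cast_dsc (f : ℤ[X]) : ((dsc (cv f) : ℤ) : F) = dsc (cf F f) := by
  unfold dsc cv cf; push_cast; ring

lemma cast_pol (f g : ℤ[X]) : ((pol (cv f) (cv g) : ℤ) : F) = pol (cf F f) (cf F g) := by
  unfold pol cv cf; push_cast; ring

lemma cast_res (f g : ℤ[X]) : ((res (cv f) (cv g) : ℤ) : F) = res (cf F f) (cf F g) := by
  unfold res cv cf; push_cast; ring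

lemma cast_det3 (f g h : ℤ[X]) :
    ((det3 (cv f) (cv g) (cv h) : ℤ) : F) = det3 (cf F f) (cf F g) (cf F h) := by
  unfold det3 cv cf; push_cast; ring

/-- two nearest points carry the whole proximity -/
lemma exists_two_near (q : ℕ) (hq : 2 ≤ q) (P : Fin q → F × F)
    (hdist : ∀ i j, i ≠ j → (P i).1 * (P j).2 ≠ (P j).1 * (P i).2) :
    ∃ K : ℝ, 1 ≤ K ∧ ∀ f : ℤ[X], ∃ j₁ j₂ : Fin q, j₁ ≠ j₂ ∧ ∀ s : ℝ, 0 < s →
      (∀ i : Fin 3, ‖(f.coeff i : F)‖ ≤ s) → (∃ i : Fin 3, s ≤ ‖(f.coeff i : F)‖) →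
      (‖fm 2 f (P j₂)‖ * ‖fm 2 f (P j₁)‖) * s ^ (q - 2) ≤ K * ∏ j, ‖fm 2 f (P j)‖ := by
  classical
  obtain ⟨K, hK1, hK⟩ := exists_gp 2 q P hdist
  have hK0 : 0 < K := by linarith
  refine ⟨(2 * K) ^ (q - 2), one_le_pow₀ (by linarith), fun f => ?_⟩
  haveI : Nonempty (Fin q) := ⟨⟨0, by omega⟩⟩
  obtain ⟨j₁, _, hj₁⟩ := Finset.exists_min_image (Finset.univ : Finset (Fin q))
    (fun j => ‖fm 2 f (P j)‖) Finset.univ_nonempty
  have hne : ((Finset.univ : Finset (Fin q)).erase j₁).Nonempty := by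
    rw [← Finset.card_pos, Finset.card_erase_of_mem (Finset.mem_univ _), Finset.card_univ,
      Fintype.card_fin]
    omega
  obtain ⟨j₂, hj₂m, hj₂⟩ := Finset.exists_min_image ((Finset.univ : Finset (Fin q)).erase j₁)
    (fun j => ‖fm 2 f (P j)‖) hne
  have h21 : j₂ ≠ j₁ := (Finset.mem_erase.1 hj₂m).1
  refine ⟨j₁, j₂, h21.symm, fun s hs hs1 hs2 => ?_⟩
  set η : ℝ := s / (2 * K) with hη
  have hη0 : 0 < η := by positivity
  have hfar : ∀ j ∈ ((Finset.univ : Finset (Fin q)).erase j₁).erase j₂, η ≤ ‖fm 2 f (P j)‖ := by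
    intro j hj
    by_contra hcon
    push Not at hcon
    rw [Finset.mem_erase] at hj
    have hj2 := hj₂ j hj.2
    have hj1 := hj₁ j (Finset.mem_univ _)
    have hjne : j ≠ j₁ := (Finset.mem_erase.1 hj.2).1
    obtain ⟨i₀, hi₀⟩ := hs2
    have h1 := hK f ![j₁, j₂, j] (by
      intro a b hab
      fin_cases a <;> fin_cases b <;> simp at hab <;> first | rfl | (exfalso; first | exact h21 hab.symm | exact h21 hab | exact hjne hab.symm | exact hjne hab | exact hj.1 hab.symm | exact hj.1 hab)) η (by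
      intro a
      fin_cases a
      · exact hj1.trans hcon.le
      · exact hj2.trans hcon.le
      · exact hcon.le) i₀
    have h3 : K * η = s / 2 := by
      rw [hη]; field_simp
    rw [h3] at h1
    linarith
  have hcard : (((Finset.univ : Finset (Fin q)).erase j₁).erase j₂).card = q - 2 := by
    rw [Finset.card_erase_of_mem hj₂m, Finset.card_erase_of_mem (Finset.mem_univ _),
      Finset.card_univ, Fintype.card_fin]
    omega
  have hprod : ∏ j, ‖fm 2 f (P j)‖ = ‖fm 2 f (P j₁)‖ * (‖fm 2 f (P j₂)‖ *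
      ∏ j ∈ ((Finset.univ : Finset (Fin q)).erase j₁).erase j₂, ‖fm 2 f (P j)‖) := by
    rw [Finset.mul_prod_erase _ (fun j => ‖fm 2 f (P j)‖) hj₂m,
      Finset.mul_prod_erase _ (fun j => ‖fm 2 f (P j)‖) (Finset.mem_univ _)]
  have hlow : η ^ (q - 2) ≤
      ∏ j ∈ ((Finset.univ : Finset (Fin q)).erase j₁).erase j₂, ‖fm 2 f (P j)‖ := by
    rw [← hcard, ← Finset.prod_const]
    exact Finset.prod_le_prod (fun _ _ => hη0.le) hfar
  rw [hprod]
  have hs' : s = 2 * K * η := by rw [hη]; field_simp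
  calc (‖fm 2 f (P j₂)‖ * ‖fm 2 f (P j₁)‖) * s ^ (q - 2)
      = (2 * K) ^ (q - 2) * (‖fm 2 f (P j₁)‖ * (‖fm 2 f (P j₂)‖ * η ^ (q - 2))) := by
        conv_lhs => rw [hs', mul_pow]
        ring
    _ ≤ _ := by gcongr

end

end Pool.Agent.W226.VQ
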