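import Mathlib
import Pool.Agent.W226.VQ.Place

set_option autoImplicit false

namespace Pool.Agent.W226.VQ

open Polynomial Finset Pool.Agent.H990R4.VJ.Red

section

variable {F : Type*} [NormedField F]

lemma bi_upper (q : ℕ) (P : Fin q → F × F) :
    ∃ U : ℝ, 1 ≤ U ∧ ∀ (f : ℤ[X]) (s : ℝ), (∀ i : Fin 3, ‖(f.coeff i : F)‖ ≤ s) →
      ∀ i j, ‖bi (cf F f) (P i) (P j)‖ ≤ U * s := by
  set T : Fin q → Fin q → ℝ := fun i j => ‖2 * (P i).2 * (P j).2‖ +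
    ‖(P i).1 * (P j).2 + (P j).1 * (P i).2‖ + ‖2 * (P i).1 * (P j).1‖ with hT
  have hT0 : ∀ i j, 0 ≤ T i j := fun i j => by rw [hT]; positivity
  refine ⟨1 + ∑ i, ∑ j, T i j, ?_, ?_⟩
  · have : 0 ≤ ∑ i, ∑ j, T i j := Finset.sum_nonneg fun i _ => Finset.sum_nonneg fun j _ => hT0 i j
    linarith
  intro f s hs i j
  have hs0 : 0 ≤ s := (norm_nonneg _).trans (hs 0)
  have h1 : ‖bi (cf F f) (P i) (P j)‖ ≤ T i j * s := by
    have e : bi (cf F f) (P i) (P j) = cf F f 0 * (2 * (P i).2 * (P j).2) +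
      cf F f 1 * ((P i).1 * (P j).2 + (P j).1 * (P i).2) + cf F f 2 * (2 * (P i).1 * (P j).1) := by
      unfold bi; ring
    rw [e]
    have h0 : ‖cf F f 0‖ ≤ s := hs 0
    have h1 : ‖cf F f 1‖ ≤ s := hs 1
    have h2 : ‖cf F f 2‖ ≤ s := hs 2
    refine (norm_add₃_le).trans ?_
    rw [norm_mul (cf F f 0), norm_mul (cf F f 1), norm_mul (cf F f 2), hT]
    have g1 := mul_le_mul_of_nonneg_right h0 (norm_nonneg (2 * (P i).2 * (P j).2))
    have g2 := mul_le_mul_of_nonneg_right h1 (norm_nonneg ((P i).1 * (P j).2 + (P j).1 * (P i).2))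
    have g3 := mul_le_mul_of_nonneg_right h2 (norm_nonneg (2 * (P i).1 * (P j).1))
    simp only
    nlinarith
  have h2 : T i j ≤ ∑ j, T i j :=
    Finset.single_le_sum (f := fun j => T i j) (fun j _ => hT0 i j) (Finset.mem_univ j)
  have h3 : ∑ j, T i j ≤ ∑ i, ∑ j, T i j :=
    Finset.single_le_sum (f := fun i => ∑ j, T i j)
      (fun i _ => Finset.sum_nonneg fun j _ => hT0 i j) (Finset.mem_univ i)
  nlinarith

lemma exp_floor_log {x : ℝ} (hx : 0 < x) : x ≤ Real.exp (⌊Real.log x⌋ + 1) ∧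
    Real.exp (⌊Real.log x⌋ + 1) ≤ Real.exp 1 * x := by
  constructor
  · conv_lhs => rw [← Real.exp_log hx]
    exact Real.exp_le_exp.2 (Int.lt_floor_add_one _).le
  · rw [Real.exp_add, mul_comm]
    refine mul_le_mul_of_nonneg_left ?_ (Real.exp_nonneg _)
    conv_rhs => rw [← Real.exp_log hx]
    exact Real.exp_le_exp.2 (Int.floor_le _)

lemma abs_floor_le {x y : ℝ} (h : |x| ≤ y) : |((⌊x⌋ : ℤ) : ℝ)| ≤ y + 1 := by
  have h1 := Int.floor_le x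
  have h2 := Int.lt_floor_add_one x
  rw [abs_le] at h ⊢
  constructor <;> linarith

lemma ax1 {U U' s x : ℝ} (h : x ≤ U * s) (hs : 0 ≤ s) (hU' : 1 ≤ U') : x ≤ (U + U') * s := by
  nlinarith

lemma ax1' {U U' s x : ℝ} (h : x ≤ U' * s) (hs : 0 ≤ s) (hU : 1 ≤ U) : x ≤ (U + U') * s := by
  nlinarith

lemma ax2 {t l x q : ℝ} (ht : 0 ≤ t) (hl : 0 ≤ l) (hx : 0 ≤ x) (hq : 1 ≤ q) :
    x ≤ t + l + q * x := by
  nlinarith

lemma ax3 {q lW l s t : ℝ} (hq : 0 ≤ q) (hlW : 0 ≤ lW) (hl : 0 ≤ l) (hs : 0 ≤ s) (ht : 0 ≤ t) :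
    t + l + q * (lW + s) + 1 ≤ (q * lW + l + q + 1) * (1 + s + t) := by
  nlinarith [mul_nonneg (mul_nonneg hq hlW) hs, mul_nonneg (mul_nonneg hq hlW) ht,
    mul_nonneg hl hs, mul_nonneg hl ht, mul_nonneg hq ht, mul_nonneg hq hs]

lemma ax4 {a c b e W s : ℝ} (h6 : a * c ≤ (e * (W * s)) * (e * (W * s)))
    (h7 : b ^ 2 ≤ (e * (W * s)) ^ 2) : a * c + b ^ 2 ≤ 2 * e ^ 2 * W ^ 2 * s ^ 2 := by
  nlinarith

lemma ax5 {e x y : ℝ} (he : 1 ≤ e) (hx : 0 ≤ x) (h : e * x < y) : x ≤ y := by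
  nlinarith

lemma ax6 {e x : ℝ} (he : 0 ≤ e) (hx : 0 ≤ x) :
    10 * e ^ 2 * (e ^ 2 * x) ≤ (20 * e ^ 3 + 10 * e ^ 4) * x := by
  nlinarith [mul_nonneg (pow_nonneg he 3) hx]

lemma ax7 {e x : ℝ} (he : 0 ≤ e) (hx : 0 ≤ x) :
    20 * e * (e ^ 2 * x) ≤ (20 * e ^ 3 + 10 * e ^ 4) * x := by
  nlinarith [mul_nonneg (pow_nonneg he 4) hx]

variable [IsAlgClosed F] [CharZero F]

theorem local_place (q : ℕ) (hq : 2 ≤ q) (G : ℤ[X]) (hG : G ≠ 0)
    (hsep : (G.map (Int.castRingHom ℚ)).Separable) (h1 : G.natDegree ≤ q)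
    (h2 : q ≤ G.natDegree + 1) :
    ∃ (K : ℝ) (cl : ℤ[X] → (Fin q × Fin q) × (ℤ × ℤ × ℤ)) (lam : ℤ[X] → ℝ)
      (sg : ℤ → ℤ → ℤ[X] → Bool), 1 ≤ K ∧
      (∀ f : ℤ[X], f.natDegree ≤ 2 → resultant f G 2 q ≠ 0 → 0 < lam f ∧
        (∀ s : ℝ, 0 < s → (∀ i : Fin 3, ‖(f.coeff i : F)‖ ≤ s) →
          (∃ i : Fin 3, s ≤ ‖(f.coeff i : F)‖) →
          lam f * s ^ (q - 2) ≤ K * ‖((resultant f G 2 q : ℤ) : F)‖) ∧
        (∀ s t : ℝ, 1 ≤ s → 0 ≤ t → (∀ i : Fin 3, ‖(f.coeff i : F)‖ ≤ s) →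
          Real.exp (-t) ≤ ‖((resultant f G 2 q : ℤ) : F)‖ →
          |((cl f).2.1 : ℝ)| ≤ K * (1 + Real.log s + t) ∧
          |((cl f).2.2.1 : ℝ)| ≤ K * (1 + Real.log s + t) ∧
          |((cl f).2.2.2 : ℝ)| ≤ K * (1 + Real.log s + t))) ∧
      (∀ f g : ℤ[X], f.natDegree ≤ 2 → g.natDegree ≤ 2 → resultant f G 2 q ≠ 0 →
        resultant g G 2 q ≠ 0 → cl f = cl g →
        lam g ≤ K * lam f ∧
        (∀ s : ℝ, (∀ i : Fin 3, ‖(f.coeff i : F)‖ ≤ s) → (∀ i : Fin 3, ‖(g.coeff i : F)‖ ≤ s) →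
          ‖((res (cv f) (cv g) : ℤ) : F)‖ ≤ K * lam f * s ^ 2) ∧
        (∀ d m m' : ℤ, dsc (cv f) = d * m ^ 2 → dsc (cv g) = d * m' ^ 2 → sg d m f = sg d m' g →
          ‖((d * m * m' - pol (cv f) (cv g) : ℤ) : F)‖ ≤ K * lam f)) ∧
      (∀ f g h : ℤ[X], f.natDegree ≤ 2 → g.natDegree ≤ 2 → h.natDegree ≤ 2 →
        resultant f G 2 q ≠ 0 → resultant g G 2 q ≠ 0 → resultant h G 2 q ≠ 0 → cl f = cl g →
        cl f = cl h → ∀ s : ℝ, (∀ i : Fin 3, ‖(f.coeff i : F)‖ ≤ s) →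
        (∀ i : Fin 3, ‖(g.coeff i : F)‖ ≤ s) → (∀ i : Fin 3, ‖(h.coeff i : F)‖ ≤ s) →
        ‖((det3 (cv f) (cv g) (cv h) : ℤ) : F)‖ ≤ K * lam f * s) := by
  classical
  obtain ⟨P, hdist, c, hc, hres⟩ := exists_points (F := F) G hG hsep q h1 h2 2
  obtain ⟨K₁, hK₁, hnear⟩ := exists_two_near q hq P hdist
  obtain ⟨U, hU1, hU⟩ := exists_upper 2 q P
  obtain ⟨U', hU1', hU'⟩ := bi_upper q P
  choose j₁ j₂ hj12 hj using hnear
  obtain ⟨δ, hδ⟩ : ∃ z : Fin q → Fin q → F, z = (fun i j => dt (P i) (P j)) := ⟨_, rfl⟩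
  have hδ0 : ∀ i j, i ≠ j → δ i j ≠ 0 := by
    intro i j hij
    rw [hδ]; exact sub_ne_zero.2 (hdist i j hij)
  obtain ⟨D₀, hD₀⟩ : ∃ z : ℝ, z = (1 + ∑ i, ∑ j, ‖(δ i j)⁻¹‖) := ⟨_, rfl⟩
  have hD1 : 1 ≤ D₀ := by
    have : 0 ≤ ∑ i, ∑ j, ‖(δ i j)⁻¹‖ := by positivity
    rw [hD₀]; linarith
  have hDle : ∀ i j, ‖(δ i j)⁻¹‖ ≤ D₀ := by
    intro i j
    have h3 : ‖(δ i j)⁻¹‖ ≤ ∑ j, ‖(δ i j)⁻¹‖ :=
      Finset.single_le_sum (f := fun j => ‖(δ i j)⁻¹‖) (fun _ _ => norm_nonneg _)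
        (Finset.mem_univ j)
    have h4 : ∑ j, ‖(δ i j)⁻¹‖ ≤ ∑ i, ∑ j, ‖(δ i j)⁻¹‖ :=
      Finset.single_le_sum (f := fun i => ∑ j, ‖(δ i j)⁻¹‖) (fun _ _ => by positivity)
        (Finset.mem_univ i)
    rw [hD₀]; linarith
  obtain ⟨W, hW⟩ : ∃ z : ℝ, z = (U + U') := ⟨_, rfl⟩
  have hW1 : 1 ≤ W := by rw [hW]; linarith
  have hc0 : 0 < ‖c‖ := norm_pos_iff.2 hc
  obtain ⟨e, he⟩ : ∃ z : ℝ, z = (Real.exp 1) := ⟨_, rfl⟩
  have he1 : 1 ≤ e := by rw [he]; exact Real.one_le_exp zero_le_one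
  have he0 : 0 < e := by linarith
  -- the coordinates
  obtain ⟨A, hA⟩ : ∃ z : ℤ[X] → F, z = (fun f => ev (cf F f) (P (j₂ f))) := ⟨_, rfl⟩
  obtain ⟨C, hC⟩ : ∃ z : ℤ[X] → F, z = (fun f => ev (cf F f) (P (j₁ f))) := ⟨_, rfl⟩
  obtain ⟨B, hB⟩ : ∃ z : ℤ[X] → F, z = (fun f => bi (cf F f) (P (j₁ f)) (P (j₂ f))) := ⟨_, rfl⟩
  obtain ⟨β, hβ⟩ : ∃ z : ℤ[X] → ℝ, z = (fun f => max ‖B f‖ (Real.sqrt (‖A f‖ * ‖C f‖))) := ⟨_, rfl⟩
  have hAe : ∀ f, A f = ev (cf F f) (P (j₂ f)) := fun f => by rw [hA]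
  have hCe : ∀ f, C f = ev (cf F f) (P (j₁ f)) := fun f => by rw [hC]
  have hBe : ∀ f, B f = bi (cf F f) (P (j₁ f)) (P (j₂ f)) := fun f => by rw [hB]
  have hβe : ∀ f, β f = max ‖B f‖ (Real.sqrt (‖A f‖ * ‖C f‖)) := fun f => by rw [hβ]
  have hβB : ∀ f, ‖B f‖ ≤ β f := fun f => by rw [hβe]; exact le_max_left _ _
  have hβS : ∀ f, Real.sqrt (‖A f‖ * ‖C f‖) ≤ β f := fun f => by rw [hβe]; exact le_max_right _ _
  have hne : ∀ f : ℤ[X], f.natDegree ≤ 2 → resultant f G 2 q ≠ 0 → ∀ j, fm 2 f (P j) ≠ 0 := by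
    intro f hf hR j h0
    have h3 := hres f hf
    rw [Finset.prod_eq_zero (Finset.mem_univ j) h0, mul_zero] at h3
    exact hR (by exact_mod_cast h3)
  have hA0 : ∀ f : ℤ[X], f.natDegree ≤ 2 → resultant f G 2 q ≠ 0 → 0 < ‖A f‖ := by
    intro f hf hR
    rw [hAe, norm_pos_iff, ← fm_eq_ev]; exact hne f hf hR _
  have hC0 : ∀ f : ℤ[X], f.natDegree ≤ 2 → resultant f G 2 q ≠ 0 → 0 < ‖C f‖ := by
    intro f hf hR
    rw [hCe, norm_pos_iff, ← fm_eq_ev]; exact hne f hf hR _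
  have hβ0 : ∀ f : ℤ[X], f.natDegree ≤ 2 → resultant f G 2 q ≠ 0 → 0 < β f := by
    intro f hf hR
    exact lt_of_lt_of_le (Real.sqrt_pos.2 (mul_pos (hA0 f hf hR) (hC0 f hf hR))) (hβS f)
  obtain ⟨cl, hcl⟩ : ∃ z : ℤ[X] → (Fin q × Fin q) × (ℤ × ℤ × ℤ), z = (fun f =>
    ((j₁ f, j₂ f), (⌊Real.log ‖A f‖⌋, ⌊Real.log ‖C f‖⌋, ⌊Real.log (β f)⌋))) := ⟨_, rfl⟩
  -- square roots
  have hsq : ∀ d : ℤ, ∃ z : F, z ^ 2 = (d : F) := by
    intro d
    obtain ⟨z, hz⟩ := IsAlgClosed.exists_pow_nat_eq (d : F) (n := 2) (by norm_num)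
    exact ⟨z, hz⟩
  choose σ hσ using hsq
  obtain ⟨w, hw⟩ : ∃ z : ℤ → ℤ → ℤ[X] → F,
      z = (fun (d m : ℤ) (f : ℤ[X]) => δ (j₁ f) (j₂ f) * (m : F) * σ d) := ⟨_, rfl⟩
  have hww : ∀ (d m : ℤ) (f : ℤ[X]), dsc (cv f) = d * m ^ 2 →
      (w d m f) ^ 2 = B f ^ 2 - 4 * C f * A f := by
    intro d m f hd
    rw [hw, hB, hC, hA]
    simp only
    rw [bi_sq, ← cast_dsc, hd]
    push_cast
    rw [mul_pow, mul_pow, hσ]
    simp only [hδ]
    ring
  have hsgn : ∀ (d m : ℤ) (f : ℤ[X]), ∃ b : Bool, B f ≠ 0 → dsc (cv f) = d * m ^ 2 →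
      ‖B f - (if b then w d m f else -w d m f)‖ ≤ 4 * (‖A f‖ * ‖C f‖) / ‖B f‖ := by
    intro d m f
    by_cases h : B f ≠ 0 ∧ dsc (cv f) = d * m ^ 2
    · obtain ⟨b, hb⟩ := exists_sign (A := A f) (B := B f) (C := C f) (w := w d m f) h.1
        (hww d m f h.2)
      exact ⟨b, fun _ _ => hb⟩
    · exact ⟨true, fun h3 h4 => absurd ⟨h3, h4⟩ h⟩
  choose sg hsg using hsgn
  have hAU : ∀ (f : ℤ[X]) (s : ℝ), (∀ i : Fin 3, ‖(f.coeff i : F)‖ ≤ s) → ‖A f‖ ≤ W * s := by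
    intro f s hs
    have hs0 : 0 ≤ s := (norm_nonneg _).trans (hs 0)
    have := hU f s hs (j₂ f)
    rw [fm_eq_ev, ← hAe] at this
    rw [hW]; exact ax1 this hs0 hU1'
  have hCU : ∀ (f : ℤ[X]) (s : ℝ), (∀ i : Fin 3, ‖(f.coeff i : F)‖ ≤ s) → ‖C f‖ ≤ W * s := by
    intro f s hs
    have hs0 : 0 ≤ s := (norm_nonneg _).trans (hs 0)
    have := hU f s hs (j₁ f)
    rw [fm_eq_ev, ← hCe] at this
    rw [hW]; exact ax1 this hs0 hU1'
  have hBU : ∀ (f : ℤ[X]) (s : ℝ), (∀ i : Fin 3, ‖(f.coeff i : F)‖ ≤ s) → ‖B f‖ ≤ W * s := by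
    intro f s hs
    have hs0 : 0 ≤ s := (norm_nonneg _).trans (hs 0)
    rw [hBe, hW]
    exact ax1' (hU' f s hs (j₁ f) (j₂ f)) hs0 hU1
  have hβU : ∀ (f : ℤ[X]) (s : ℝ), (∀ i : Fin 3, ‖(f.coeff i : F)‖ ≤ s) → β f ≤ W * s := by
    intro f s hs
    have hs0 : 0 ≤ s := (norm_nonneg _).trans (hs 0)
    rw [hβe]
    refine max_le (hBU f s hs) ?_
    rw [show W * s = Real.sqrt ((W * s) ^ 2) by rw [Real.sqrt_sq (by positivity)]]
    refine Real.sqrt_le_sqrt ?_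
    rw [pow_two]
    exact mul_le_mul (hAU f s hs) (hCU f s hs) (norm_nonneg _) (by positivity)
  obtain ⟨K, hK⟩ : ∃ z : ℝ, z = (1 + K₁ / ‖c‖ + e ^ 2 + 8 * e ^ 4 * D₀ ^ 4 * W ^ 2 + 6 * e ^ 3 * D₀ ^ 3 * W +
    D₀ ^ 2 * (20 * e ^ 3 + 10 * e ^ 4) + q * Real.log W + |Real.log ‖c‖| + q) := ⟨_, rfl⟩
  have hlW : 0 ≤ Real.log W := Real.log_nonneg hW1
  have p1 : 0 ≤ K₁ / ‖c‖ := by positivity
  have p2 : 0 ≤ e ^ 2 := by positivity
  have p3 : 0 ≤ 8 * e ^ 4 * D₀ ^ 4 * W ^ 2 := by positivity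
  have p4 : 0 ≤ 6 * e ^ 3 * D₀ ^ 3 * W := by positivity
  have p5 : 0 ≤ D₀ ^ 2 * (20 * e ^ 3 + 10 * e ^ 4) := by positivity
  have p6 : 0 ≤ q * Real.log W := by positivity
  have p7 : 0 ≤ |Real.log ‖c‖| := abs_nonneg _
  have p8 : (0 : ℝ) ≤ q := Nat.cast_nonneg _
  -- consequences of equality of the classes
  have hefl : ∀ x : ℝ, 0 < x → Real.exp (⌊Real.log x⌋ + 1) ≤ e * x := fun x hx => by
    rw [he]; exact (exp_floor_log hx).2
  refine ⟨K, cl, fun f => ‖A f‖ * ‖C f‖, sg, by linarith, ?_, ?_, ?_⟩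
  · intro f hf hR
    have a0 := hA0 f hf hR
    have c0 := hC0 f hf hR
    refine ⟨mul_pos a0 c0, ?_, ?_⟩
    · intro s hs hs1 hs2
      have h3 := hj f s hs hs1 hs2
      rw [fm_eq_ev, fm_eq_ev, ← hAe, ← hCe] at h3
      have h4 : ∏ j, ‖fm 2 f (P j)‖ = ‖((resultant f G 2 q : ℤ) : F)‖ / ‖c‖ := by
        rw [hres f hf, norm_mul, norm_prod]; field_simp
      rw [h4] at h3
      calc ‖A f‖ * ‖C f‖ * s ^ (q - 2) ≤ K₁ * (‖((resultant f G 2 q : ℤ) : F)‖ / ‖c‖) := h3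
        _ = K₁ / ‖c‖ * ‖((resultant f G 2 q : ℤ) : F)‖ := by ring
        _ ≤ K * ‖((resultant f G 2 q : ℤ) : F)‖ := by
            refine mul_le_mul_of_nonneg_right ?_ (norm_nonneg _)
            linarith
    · intro s t hs1 ht hs hR'
      have hs0 : 0 < s := by linarith
      have hls : 0 ≤ Real.log s := Real.log_nonneg hs1
      have hWs : 1 ≤ W * s := one_le_mul_of_one_le_of_one_le hW1 hs1
      have hlWs : Real.log (W * s) = Real.log W + Real.log s :=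
        Real.log_mul (by linarith) (by linarith)
      -- lower bound for one factor
      have hlow : ∀ j, -(t + |Real.log ‖c‖| + q * (Real.log W + Real.log s)) ≤
          Real.log ‖fm 2 f (P j)‖ := by
        intro j
        have hf0 : 0 < ‖fm 2 f (P j)‖ := norm_pos_iff.2 (hne f hf hR j)
        have h3 : ‖((resultant f G 2 q : ℤ) : F)‖ ≤
            ‖c‖ * (‖fm 2 f (P j)‖ * (W * s) ^ (q - 1)) := by
          rw [hres f hf, norm_mul, norm_prod]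
          refine mul_le_mul_of_nonneg_left ?_ (norm_nonneg _)
          rw [← Finset.mul_prod_erase _ (fun j => ‖fm 2 f (P j)‖) (Finset.mem_univ j)]
          refine mul_le_mul_of_nonneg_left ?_ (norm_nonneg _)
          have hcard : ((Finset.univ : Finset (Fin q)).erase j).card = q - 1 := by
            rw [Finset.card_erase_of_mem (Finset.mem_univ _), Finset.card_univ, Fintype.card_fin]
          rw [← hcard, ← Finset.prod_const]
          refine Finset.prod_le_prod (fun _ _ => norm_nonneg _) fun i _ => ?_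
          rw [hW]; exact ax1 (hU f s hs i) hs0.le hU1'
        have h4 := Real.log_le_log (Real.exp_pos _) (hR'.trans h3)
        rw [Real.log_exp, Real.log_mul hc0.ne' (by positivity),
          Real.log_mul hf0.ne' (by positivity), Real.log_pow, hlWs] at h4
        have h5 : ((q - 1 : ℕ) : ℝ) ≤ q := by exact_mod_cast Nat.sub_le _ _
        have h6 := le_abs_self (Real.log ‖c‖)
        have h7 : ((q - 1 : ℕ) : ℝ) * (Real.log W + Real.log s) ≤ q * (Real.log W + Real.log s) :=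
          mul_le_mul_of_nonneg_right h5 (by linarith)
        linarith
      obtain ⟨L, hL⟩ : ∃ z : ℝ, z = (t + |Real.log ‖c‖| + q * (Real.log W + Real.log s)) := ⟨_, rfl⟩
      have hq1 : (1 : ℝ) ≤ q := by exact_mod_cast (show 1 ≤ q by omega)
      have hL1 : Real.log W + Real.log s ≤ L := by
        rw [hL]; exact ax2 ht p7 (by linarith) hq1
      have hupA : Real.log ‖A f‖ ≤ L := by
        have := Real.log_le_log a0 (hAU f s hs)
        rw [hlWs] at this; linarith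
      have hupC : Real.log ‖C f‖ ≤ L := by
        have := Real.log_le_log c0 (hCU f s hs)
        rw [hlWs] at this; linarith
      have hloA : -L ≤ Real.log ‖A f‖ := by
        have := hlow (j₂ f); rw [fm_eq_ev, ← hAe, ← hL] at this; exact this
      have hloC : -L ≤ Real.log ‖C f‖ := by
        have := hlow (j₁ f); rw [fm_eq_ev, ← hCe, ← hL] at this; exact this
      have b0 := hβ0 f hf hR
      have hupB : Real.log (β f) ≤ L := by
        have := Real.log_le_log b0 (hβU f s hs)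
        rw [hlWs] at this; linarith
      have hloB : -L ≤ Real.log (β f) := by
        have h3 : Real.sqrt (‖A f‖ * ‖C f‖) ≤ β f := hβS f
        have h4 := Real.log_le_log (Real.sqrt_pos.2 (mul_pos a0 c0)) h3
        rw [Real.log_sqrt (by positivity), Real.log_mul a0.ne' c0.ne'] at h4
        linarith
      have hLK : L + 1 ≤ K * (1 + Real.log s + t) := by
        have h3 : L + 1 ≤ (q * Real.log W + |Real.log ‖c‖| + q + 1) * (1 + Real.log s + t) := by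
          rw [hL]
          exact ax3 p8 hlW p7 hls ht
        refine h3.trans (mul_le_mul_of_nonneg_right ?_ (by linarith))
        linarith
      rw [hcl]
      refine ⟨?_, ?_, ?_⟩
      · exact (abs_floor_le (abs_le.2 ⟨hloA, hupA⟩)).trans hLK
      · exact (abs_floor_le (abs_le.2 ⟨hloC, hupC⟩)).trans hLK
      · exact (abs_floor_le (abs_le.2 ⟨hloB, hupB⟩)).trans hLK
  · intro f g hf hg hRf hRg hfg
    have a0 := hA0 f hf hRf
    have c0 := hC0 f hf hRf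
    have b0 := hβ0 f hf hRf
    have a0' := hA0 g hg hRg
    have c0' := hC0 g hg hRg
    have b0' := hβ0 g hg hRg
    rw [hcl] at hfg
    have hj1 : j₁ f = j₁ g := congrArg (fun z => z.1.1) hfg
    have hj2 : j₂ f = j₂ g := congrArg (fun z => z.1.2) hfg
    have ea : ⌊Real.log ‖A f‖⌋ = ⌊Real.log ‖A g‖⌋ := congrArg (fun z => z.2.1) hfg
    have ec : ⌊Real.log ‖C f‖⌋ = ⌊Real.log ‖C g‖⌋ := congrArg (fun z => z.2.2.1) hfg
    have eb : ⌊Real.log (β f)⌋ = ⌊Real.log (β g)⌋ := congrArg (fun z => z.2.2.2) hfg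
    obtain ⟨a, ha⟩ : ∃ z : ℝ, z = (Real.exp (⌊Real.log ‖A f‖⌋ + 1)) := ⟨_, rfl⟩
    obtain ⟨b, hb⟩ : ∃ z : ℝ, z = (Real.exp (⌊Real.log (β f)⌋ + 1)) := ⟨_, rfl⟩
    obtain ⟨cc, hcc⟩ : ∃ z : ℝ, z = (Real.exp (⌊Real.log ‖C f‖⌋ + 1)) := ⟨_, rfl⟩
    have ga : ‖A f‖ ≤ a := by rw [ha]; exact (exp_floor_log a0).1
    have ga' : ‖A g‖ ≤ a := by rw [ha, ea]; exact (exp_floor_log a0').1
    have gc : ‖C f‖ ≤ cc := by rw [hcc]; exact (exp_floor_log c0).1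
    have gc' : ‖C g‖ ≤ cc := by rw [hcc, ec]; exact (exp_floor_log c0').1
    have gb : β f ≤ b := by rw [hb]; exact (exp_floor_log b0).1
    have gb' : β g ≤ b := by rw [hb, eb]; exact (exp_floor_log b0').1
    have ua : a ≤ e * ‖A f‖ := by rw [ha]; exact hefl _ a0
    have uc : cc ≤ e * ‖C f‖ := by rw [hcc]; exact hefl _ c0
    have ub : b ≤ e * β f := by rw [hb]; exact hefl _ b0
    have ub' : b ≤ e * β g := by rw [hb, eb]; exact hefl _ b0'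
    have hb0 : 0 < b := by rw [hb]; exact Real.exp_pos _
    have ha0 : 0 < a := by rw [ha]; exact Real.exp_pos _
    have hcc0 : 0 < cc := by rw [hcc]; exact Real.exp_pos _
    have uac : a * cc ≤ e ^ 2 * (‖A f‖ * ‖C f‖) := by
      calc a * cc ≤ (e * ‖A f‖) * (e * ‖C f‖) := by gcongr
        _ = _ := by ring
    have gB : ‖B f‖ ≤ b := (hβB _).trans gb
    have gB' : ‖B g‖ ≤ b := (hβB _).trans gb'
    have hjne := hj12 f
    have dne : δ (j₁ f) (j₂ f) ≠ 0 := hδ0 _ _ hjne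
    have dnp : 0 < ‖δ (j₁ f) (j₂ f)‖ := norm_pos_iff.2 dne
    have dinv : 1 ≤ D₀ * ‖δ (j₁ f) (j₂ f)‖ := by
      have h3 := hDle (j₁ f) (j₂ f)
      rw [norm_inv] at h3
      have h4 := mul_le_mul_of_nonneg_right h3 dnp.le
      rwa [inv_mul_cancel₀ dnp.ne'] at h4
    refine ⟨?_, ?_, ?_⟩
    · have h3 : ‖A g‖ * ‖C g‖ ≤ e ^ 2 * (‖A f‖ * ‖C f‖) :=
        (mul_le_mul ga' gc' (norm_nonneg _) ha0.le).trans uac
      refine h3.trans (mul_le_mul_of_nonneg_right ?_ (by positivity))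
      linarith
    · intro s hsf hsg
      have hs0 : 0 ≤ s := (norm_nonneg _).trans (hsf 0)
      have h3 := res_le (A := A f) (A' := A g) (B := B f) (B' := B g) (C := C f) (C' := C g)
        ga ga' gB gB' gc gc'
      have h4 : (C f * A g - A f * C g) ^ 2 - (C f * B g - B f * C g) * (B f * A g - A f * B g) =
          δ (j₁ f) (j₂ f) ^ 4 * res (cf F f) (cf F g) := by
        rw [hAe, hAe, hBe, hBe, hCe, hCe, ← hj1, ← hj2, ev_res, hδ]
      rw [h4, norm_mul, norm_pow, ← cast_res] at h3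
      have hbs : b ≤ e * (W * s) := ub.trans (mul_le_mul_of_nonneg_left (hβU f s hsf) he0.le)
      have has : a ≤ e * (W * s) := ua.trans (mul_le_mul_of_nonneg_left (hAU f s hsf) he0.le)
      have hcs : cc ≤ e * (W * s) := uc.trans (mul_le_mul_of_nonneg_left (hCU f s hsf) he0.le)
      have h5 : a * cc + b ^ 2 ≤ 2 * e ^ 2 * W ^ 2 * s ^ 2 := by
        have h6 : a * cc ≤ (e * (W * s)) * (e * (W * s)) :=
          mul_le_mul has hcs hcc0.le (by positivity)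
        have h7 : b ^ 2 ≤ (e * (W * s)) ^ 2 := pow_le_pow_left₀ hb0.le hbs 2
        exact ax4 h6 h7
      have h8 : 1 ≤ D₀ ^ 4 * ‖δ (j₁ f) (j₂ f)‖ ^ 4 := by
        rw [← mul_pow]; exact one_le_pow₀ dinv
      have h9 : ‖((res (cv f) (cv g) : ℤ) : F)‖ ≤ 8 * e ^ 4 * D₀ ^ 4 * W ^ 2 * (‖A f‖ * ‖C f‖) * s ^ 2 := by
        calc ‖((res (cv f) (cv g) : ℤ) : F)‖
            ≤ (D₀ ^ 4 * ‖δ (j₁ f) (j₂ f)‖ ^ 4) * ‖((res (cv f) (cv g) : ℤ) : F)‖ :=
              le_mul_of_one_le_left (norm_nonneg _) h8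
          _ = D₀ ^ 4 * (‖δ (j₁ f) (j₂ f)‖ ^ 4 * ‖((res (cv f) (cv g) : ℤ) : F)‖) := by ring
          _ ≤ D₀ ^ 4 * (4 * (a * cc) * (a * cc + b ^ 2)) := by gcongr
          _ ≤ D₀ ^ 4 * (4 * (e ^ 2 * (‖A f‖ * ‖C f‖)) * (2 * e ^ 2 * W ^ 2 * s ^ 2)) := by gcongr
          _ = _ := by ring
      refine h9.trans ?_
      have h10 : 0 ≤ (‖A f‖ * ‖C f‖) * s ^ 2 := by positivity
      have h11 : 8 * e ^ 4 * D₀ ^ 4 * W ^ 2 ≤ K := by linarith
      calc 8 * e ^ 4 * D₀ ^ 4 * W ^ 2 * (‖A f‖ * ‖C f‖) * s ^ 2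
          = 8 * e ^ 4 * D₀ ^ 4 * W ^ 2 * ((‖A f‖ * ‖C f‖) * s ^ 2) := by ring
        _ ≤ K * ((‖A f‖ * ‖C f‖) * s ^ 2) := mul_le_mul_of_nonneg_right h11 h10
        _ = _ := by ring
    · intro d m m' hd hd' hsgfg
      have hw1 := hww d m f hd
      have hw2 := hww d m' g hd'
      have hprodw : δ (j₁ f) (j₂ f) ^ 2 * ((d * m * m' : ℤ) : F) = w d m f * w d m' g := by
        rw [hw]
        simp only
        rw [← hj1, ← hj2]
        push_cast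
        rw [← hσ d]
        ring
      have hpol : δ (j₁ f) (j₂ f) ^ 2 * ((pol (cv f) (cv g) : ℤ) : F) =
          B f * B g - 2 * C f * A g - 2 * A f * C g := by
        rw [cast_pol, hAe, hAe, hBe, hBe, hCe, hCe, ← hj1, ← hj2, hδ]
        simp only
        rw [← bi_pol]
      have hkey : ‖(B f * B g - 2 * C f * A g - 2 * A f * C g) - w d m f * w d m' g‖ ≤
          (20 * e ^ 3 + 10 * e ^ 4) * (‖A f‖ * ‖C f‖) := by
        have hACf : 0 ≤ ‖A f‖ * ‖C f‖ := by positivity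
        by_cases hcase : b ^ 2 ≤ e ^ 2 * (a * cc)
        · have h3 := lin_le' (one_le_pow₀ he1 : 1 ≤ e ^ 2) ga ga' gB gB' gc gc' hcase hw1 hw2
          refine h3.trans ?_
          calc 10 * e ^ 2 * (a * cc) ≤ 10 * e ^ 2 * (e ^ 2 * (‖A f‖ * ‖C f‖)) := by gcongr
            _ ≤ _ := ax6 he0.le hACf
        · push Not at hcase
          have hac1 : a * cc ≤ b ^ 2 := by
            have : 1 ≤ e ^ 2 := one_le_pow₀ he1
            exact ax5 this (mul_pos ha0 hcc0).le hcase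
          have hlowB : ∀ x y z : ℝ, 0 ≤ x → 0 ≤ y → x ≤ a → y ≤ cc → 0 ≤ z →
              b ≤ e * max z (Real.sqrt (x * y)) → b ≤ e * z := by
            intro x y z hx hy hxa hyc hz hm
            rcases max_choice z (Real.sqrt (x * y)) with h | h
            · rwa [h] at hm
            · exfalso
              rw [h] at hm
              have h3 : b ^ 2 ≤ (e * Real.sqrt (x * y)) ^ 2 := pow_le_pow_left₀ hb0.le hm 2
              rw [mul_pow, Real.sq_sqrt (by positivity)] at h3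
              have h4 : x * y ≤ a * cc := mul_le_mul hxa hyc hy ha0.le
              have h5 : e ^ 2 * (x * y) ≤ e ^ 2 * (a * cc) := by gcongr
              linarith
          have hBl : b ≤ e * ‖B f‖ := hlowB _ _ _ (norm_nonneg _) (norm_nonneg _) ga gc
            (norm_nonneg _) (by rw [hβe] at ub; exact ub)
          have hBl' : b ≤ e * ‖B g‖ := hlowB _ _ _ (norm_nonneg _) (norm_nonneg _) ga' gc'
            (norm_nonneg _) (by rw [hβe] at ub'; exact ub')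
          have hBne : B f ≠ 0 := by
            intro h0; rw [h0, norm_zero, mul_zero] at hBl; linarith
          have hBne' : B g ≠ 0 := by
            intro h0; rw [h0, norm_zero, mul_zero] at hBl'; linarith
          have s1 := hsg d m f hBne hd
          have s2 := hsg d m' g hBne' hd'
          rw [← hsgfg] at s2
          have h3 := lin_le (w := if sg d m f then w d m f else -w d m f)
            (w' := if sg d m f then w d m' g else -w d m' g) he1 ga ga' gB gB' gc gc' hb0 hBl hBl'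
            hac1 s1 s2 (by
              split_ifs
              · exact hw2
              · rw [neg_sq]; exact hw2)
          have h4 : (if sg d m f then w d m f else -w d m f) *
              (if sg d m f then w d m' g else -w d m' g) = w d m f * w d m' g := by
            split_ifs <;> ring
          rw [h4] at h3
          refine h3.trans ?_
          calc 20 * e * (a * cc) ≤ 20 * e * (e ^ 2 * (‖A f‖ * ‖C f‖)) := by gcongr
            _ ≤ _ := ax7 he0.le hACf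
      rw [← hpol, ← hprodw, ← mul_sub, norm_mul, norm_pow, ← Int.cast_sub] at hkey
      have h8 : 1 ≤ D₀ ^ 2 * ‖δ (j₁ f) (j₂ f)‖ ^ 2 := by
        rw [← mul_pow]; exact one_le_pow₀ dinv
      have h9 : ‖((d * m * m' - pol (cv f) (cv g) : ℤ) : F)‖ =
          ‖((pol (cv f) (cv g) - d * m * m' : ℤ) : F)‖ := by
        rw [← norm_neg]; congr 1; push_cast; ring
      rw [h9]
      calc ‖((pol (cv f) (cv g) - d * m * m' : ℤ) : F)‖
          ≤ (D₀ ^ 2 * ‖δ (j₁ f) (j₂ f)‖ ^ 2) * ‖((pol (cv f) (cv g) - d * m * m' : ℤ) : F)‖ :=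
            le_mul_of_one_le_left (norm_nonneg _) h8
        _ = D₀ ^ 2 * (‖δ (j₁ f) (j₂ f)‖ ^ 2 * ‖((pol (cv f) (cv g) - d * m * m' : ℤ) : F)‖) := by
            ring
        _ ≤ D₀ ^ 2 * ((20 * e ^ 3 + 10 * e ^ 4) * (‖A f‖ * ‖C f‖)) := by gcongr
        _ = (D₀ ^ 2 * (20 * e ^ 3 + 10 * e ^ 4)) * (‖A f‖ * ‖C f‖) := by ring
        _ ≤ K * (‖A f‖ * ‖C f‖) := by
            refine mul_le_mul_of_nonneg_right ?_ (by positivity)
            linarith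
  · intro f g h hf hg hh hRf hRg hRh hfg hfh s hsf hsg hsh
    have a0 := hA0 f hf hRf
    have c0 := hC0 f hf hRf
    have b0 := hβ0 f hf hRf
    have a0' := hA0 g hg hRg
    have c0' := hC0 g hg hRg
    have b0' := hβ0 g hg hRg
    have a0'' := hA0 h hh hRh
    have c0'' := hC0 h hh hRh
    have b0'' := hβ0 h hh hRh
    rw [hcl] at hfg
    have hj1 : j₁ f = j₁ g := congrArg (fun z => z.1.1) hfg
    have hj2 : j₂ f = j₂ g := congrArg (fun z => z.1.2) hfg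
    have ea : ⌊Real.log ‖A f‖⌋ = ⌊Real.log ‖A g‖⌋ := congrArg (fun z => z.2.1) hfg
    have ec : ⌊Real.log ‖C f‖⌋ = ⌊Real.log ‖C g‖⌋ := congrArg (fun z => z.2.2.1) hfg
    have eb : ⌊Real.log (β f)⌋ = ⌊Real.log (β g)⌋ := congrArg (fun z => z.2.2.2) hfg
    rw [hcl] at hfh
    have hj1' : j₁ f = j₁ h := congrArg (fun z => z.1.1) hfh
    have hj2' : j₂ f = j₂ h := congrArg (fun z => z.1.2) hfh
    have ea' : ⌊Real.log ‖A f‖⌋ = ⌊Real.log ‖A h‖⌋ := congrArg (fun z => z.2.1) hfh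
    have ec' : ⌊Real.log ‖C f‖⌋ = ⌊Real.log ‖C h‖⌋ := congrArg (fun z => z.2.2.1) hfh
    have eb' : ⌊Real.log (β f)⌋ = ⌊Real.log (β h)⌋ := congrArg (fun z => z.2.2.2) hfh
    obtain ⟨a, ha⟩ : ∃ z : ℝ, z = (Real.exp (⌊Real.log ‖A f‖⌋ + 1)) := ⟨_, rfl⟩
    obtain ⟨b, hb⟩ : ∃ z : ℝ, z = (Real.exp (⌊Real.log (β f)⌋ + 1)) := ⟨_, rfl⟩
    obtain ⟨cc, hcc⟩ : ∃ z : ℝ, z = (Real.exp (⌊Real.log ‖C f‖⌋ + 1)) := ⟨_, rfl⟩
    have ga : ‖A f‖ ≤ a := by rw [ha]; exact (exp_floor_log a0).1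
    have ga' : ‖A g‖ ≤ a := by rw [ha, ea]; exact (exp_floor_log a0').1
    have ga'' : ‖A h‖ ≤ a := by rw [ha, ea']; exact (exp_floor_log a0'').1
    have gc : ‖C f‖ ≤ cc := by rw [hcc]; exact (exp_floor_log c0).1
    have gc' : ‖C g‖ ≤ cc := by rw [hcc, ec]; exact (exp_floor_log c0').1
    have gc'' : ‖C h‖ ≤ cc := by rw [hcc, ec']; exact (exp_floor_log c0'').1
    have gb : β f ≤ b := by rw [hb]; exact (exp_floor_log b0).1
    have gb' : β g ≤ b := by rw [hb, eb]; exact (exp_floor_log b0').1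
    have gb'' : β h ≤ b := by rw [hb, eb']; exact (exp_floor_log b0'').1
    have ua : a ≤ e * ‖A f‖ := by rw [ha]; exact hefl _ a0
    have uc : cc ≤ e * ‖C f‖ := by rw [hcc]; exact hefl _ c0
    have ub : b ≤ e * β f := by rw [hb]; exact hefl _ b0
    have hb0 : 0 < b := by rw [hb]; exact Real.exp_pos _
    have ha0 : 0 < a := by rw [ha]; exact Real.exp_pos _
    have hcc0 : 0 < cc := by rw [hcc]; exact Real.exp_pos _
    have uac : a * cc ≤ e ^ 2 * (‖A f‖ * ‖C f‖) := by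
      calc a * cc ≤ (e * ‖A f‖) * (e * ‖C f‖) := by gcongr
        _ = _ := by ring
    have gB : ‖B f‖ ≤ b := (hβB _).trans gb
    have gB' : ‖B g‖ ≤ b := (hβB _).trans gb'
    have gB'' : ‖B h‖ ≤ b := (hβB _).trans gb''
    have hjne := hj12 f
    have dne : δ (j₁ f) (j₂ f) ≠ 0 := hδ0 _ _ hjne
    have dnp : 0 < ‖δ (j₁ f) (j₂ f)‖ := norm_pos_iff.2 dne
    have dinv : 1 ≤ D₀ * ‖δ (j₁ f) (j₂ f)‖ := by
      have h3 := hDle (j₁ f) (j₂ f)
      rw [norm_inv] at h3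
      have h4 := mul_le_mul_of_nonneg_right h3 dnp.le
      rwa [inv_mul_cancel₀ dnp.ne'] at h4
    have hs0 : 0 ≤ s := (norm_nonneg _).trans (hsf 0)
    have h3 := det_le (A := A f) (A' := A g) (A'' := A h) (B := B f) (B' := B g) (B'' := B h)
      (C := C f) (C' := C g) (C'' := C h) ga ga' ga'' gB gB' gB'' gc gc' gc''
    have h4 : det3 ![C f, B f, A f] ![C g, B g, A g] ![C h, B h, A h] =
        -(δ (j₁ f) (j₂ f) ^ 3 * det3 (cf F f) (cf F g) (cf F h)) := by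
      rw [hAe, hAe, hAe, hBe, hBe, hBe, hCe, hCe, hCe, ← hj1, ← hj2, ← hj1', ← hj2', ev_det, hδ]
    rw [h4, norm_neg, norm_mul, norm_pow, ← cast_det3] at h3
    have hbs : b ≤ e * (W * s) := ub.trans (mul_le_mul_of_nonneg_left (hβU f s hsf) he0.le)
    have h8 : 1 ≤ D₀ ^ 3 * ‖δ (j₁ f) (j₂ f)‖ ^ 3 := by
      rw [← mul_pow]; exact one_le_pow₀ dinv
    calc ‖((det3 (cv f) (cv g) (cv h) : ℤ) : F)‖
        ≤ (D₀ ^ 3 * ‖δ (j₁ f) (j₂ f)‖ ^ 3) * ‖((det3 (cv f) (cv g) (cv h) : ℤ) : F)‖ :=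
          le_mul_of_one_le_left (norm_nonneg _) h8
      _ = D₀ ^ 3 * (‖δ (j₁ f) (j₂ f)‖ ^ 3 * ‖((det3 (cv f) (cv g) (cv h) : ℤ) : F)‖) := by ring
      _ ≤ D₀ ^ 3 * (6 * (a * cc) * b) := by gcongr
      _ ≤ D₀ ^ 3 * (6 * (e ^ 2 * (‖A f‖ * ‖C f‖)) * (e * (W * s))) := by gcongr
      _ = (6 * e ^ 3 * D₀ ^ 3 * W) * ((‖A f‖ * ‖C f‖) * s) := by ring
      _ ≤ K * ((‖A f‖ * ‖C f‖) * s) := by
          refine mul_le_mul_of_nonneg_right ?_ (by positivity)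
          linarith
      _ = _ := by ring

end

end Pool.Agent.W226.VQ
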