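import Mathlib
import Pool.Agent.W226.VQ.Place2
import Pool.Agent.W226.VQ.Key
import Pool.Agent.H990R4.VJ.O

set_option autoImplicit false

namespace Pool.Agent.W226.VQ

open Polynomial Finset Pool.Agent.H990R4.VJ.Red

/-- the local data at a place; `nv` is the absolute value on the integers -/
def LocProp (q : ℕ) (G : ℤ[X]) (nv : ℤ → ℝ) (K : ℝ)
    (cl : ℤ[X] → (Fin q × Fin q) × (ℤ × ℤ × ℤ)) (lam : ℤ[X] → ℝ)
    (sg : ℤ → ℤ → ℤ[X] → Bool) : Prop :=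
  1 ≤ K ∧
  (∀ f : ℤ[X], f.natDegree ≤ 2 → resultant f G 2 q ≠ 0 → 0 < lam f ∧
    (∀ s : ℝ, 0 < s → (∀ i : Fin 3, nv (f.coeff i) ≤ s) →
      (∃ i : Fin 3, s ≤ nv (f.coeff i)) →
      lam f * s ^ (q - 2) ≤ K * nv (resultant f G 2 q)) ∧
    (∀ s t : ℝ, 1 ≤ s → 0 ≤ t → (∀ i : Fin 3, nv (f.coeff i) ≤ s) →
      Real.exp (-t) ≤ nv (resultant f G 2 q) →
      |((cl f).2.1 : ℝ)| ≤ K * (1 + Real.log s + t) ∧
      |((cl f).2.2.1 : ℝ)| ≤ K * (1 + Real.log s + t) ∧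
      |((cl f).2.2.2 : ℝ)| ≤ K * (1 + Real.log s + t))) ∧
  (∀ f g : ℤ[X], f.natDegree ≤ 2 → g.natDegree ≤ 2 → resultant f G 2 q ≠ 0 →
    resultant g G 2 q ≠ 0 → cl f = cl g →
    lam g ≤ K * lam f ∧
    (∀ s : ℝ, (∀ i : Fin 3, nv (f.coeff i) ≤ s) → (∀ i : Fin 3, nv (g.coeff i) ≤ s) →
      nv (res (cv f) (cv g)) ≤ K * lam f * s ^ 2) ∧
    (∀ d m m' : ℤ, dsc (cv f) = d * m ^ 2 → dsc (cv g) = d * m' ^ 2 → sg d m f = sg d m' g →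
      nv (d * m * m' - pol (cv f) (cv g)) ≤ K * lam f)) ∧
  (∀ f g h : ℤ[X], f.natDegree ≤ 2 → g.natDegree ≤ 2 → h.natDegree ≤ 2 →
    resultant f G 2 q ≠ 0 → resultant g G 2 q ≠ 0 → resultant h G 2 q ≠ 0 → cl f = cl g →
    cl f = cl h → ∀ s : ℝ, (∀ i : Fin 3, nv (f.coeff i) ≤ s) →
    (∀ i : Fin 3, nv (g.coeff i) ≤ s) → (∀ i : Fin 3, nv (h.coeff i) ≤ s) →
    nv (det3 (cv f) (cv g) (cv h)) ≤ K * lam f * s)

theorem loc_complex (q : ℕ) (hq : 2 ≤ q) (G : ℤ[X]) (hG : G ≠ 0)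
    (hsep : (G.map (Int.castRingHom ℚ)).Separable) (h1 : G.natDegree ≤ q)
    (h2 : q ≤ G.natDegree + 1) :
    ∃ (K : ℝ) (cl : ℤ[X] → (Fin q × Fin q) × (ℤ × ℤ × ℤ)) (lam : ℤ[X] → ℝ)
      (sg : ℤ → ℤ → ℤ[X] → Bool), LocProp q G (fun n => |(n : ℝ)|) K cl lam sg := by
  obtain ⟨K, cl, lam, sg, h⟩ := local_place (F := ℂ) q hq G hG hsep h1 h2
  refine ⟨K, cl, lam, sg, ?_⟩
  have hnv : (fun n : ℤ => |(n : ℝ)|) = fun n : ℤ => ‖(n : ℂ)‖ := by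
    funext n; rw [Complex.norm_intCast]
  rw [hnv]
  exact h

theorem loc_padic (p : ℕ) (hp : p.Prime) (q : ℕ) (hq : 2 ≤ q) (G : ℤ[X]) (hG : G ≠ 0)
    (hsep : (G.map (Int.castRingHom ℚ)).Separable) (h1 : G.natDegree ≤ q)
    (h2 : q ≤ G.natDegree + 1) :
    ∃ (K : ℝ) (cl : ℤ[X] → (Fin q × Fin q) × (ℤ × ℤ × ℤ)) (lam : ℤ[X] → ℝ)
      (sg : ℤ → ℤ → ℤ[X] → Bool), LocProp q G (av p) K cl lam sg := by
  have : Fact p.Prime := ⟨hp⟩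
  obtain ⟨K, cl, lam, sg, h⟩ := local_place (F := PadicAlgCl p) q hq G hG hsep h1 h2
  refine ⟨K, cl, lam, sg, ?_⟩
  have hnv : av p = fun n : ℤ => ‖(n : PadicAlgCl p)‖ := by
    funext n
    rw [norm_int_padic]
    unfold av
    rw [← Padic.eq_padicNorm]
    push_cast
    rfl
  rw [hnv]
  exact h

end Pool.Agent.W226.VQ
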