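import Mathlib
import Pool.Agent.W226.VQ.Places
import Pool.Agent.H990R4.VJ.D
import Pool.Agent.H813R3.Voj.Sf

set_option autoImplicit false

namespace Pool.Agent.W226.VQ

open Polynomial Finset Pool.Agent.H990R4.VJ Pool.Agent.H990R4.VJ.Red Pool.Agent.H813R3.Voj

/-- the squarefree part with sign -/
def sqf (n : ℤ) : ℤ := n.sign * (op n.natAbs : ℤ)

lemma exists_sqf (n : ℤ) (hn : n ≠ 0) : ∃ t : ℤ, n = sqf n * t ^ 2 := by
  obtain ⟨t, ht⟩ := exists_sq n.natAbs (Int.natAbs_ne_zero.2 hn)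
  refine ⟨t, ?_⟩
  unfold sqf
  have h1 : (n.natAbs : ℤ) = (op n.natAbs : ℤ) * (t : ℤ) ^ 2 := by exact_mod_cast ht
  conv_lhs => rw [← Int.sign_mul_natAbs n]
  rw [h1]; ring

lemma abs_sqf (n : ℤ) (hn : n ≠ 0) : |(sqf n : ℝ)| = (op n.natAbs : ℝ) := by
  unfold sqf
  push_cast
  rw [abs_mul]
  have h1 : |(n.sign : ℝ)| = 1 := by
    rcases lt_or_gt_of_ne hn with h | h
    · rw [Int.sign_eq_neg_one_of_neg h]; norm_num
    · rw [Int.sign_eq_one_of_pos h]; norm_num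
  rw [h1, one_mul, abs_of_nonneg (Nat.cast_nonneg _)]

lemma cv_inj {f g : ℤ[X]} (hf : f.natDegree ≤ 2) (hg : g.natDegree ≤ 2) (h : cv f = cv g) :
    f = g := by
  ext i
  by_cases hi : i ≤ 2
  · have := congrFun h ⟨i, by omega⟩
    exact this
  · rw [coeff_eq_zero_of_natDegree_lt (by omega), coeff_eq_zero_of_natDegree_lt (by omega)]

theorem class_count (q : ℕ) (G : ℤ[X]) (S : Finset ℕ) (hS : ∀ p ∈ S, p.Prime) (ε K₀ : ℝ)
    (hε : 0 < ε) (hK₀ : 0 < K₀) (K : ℝ) (cl : ℤ[X] → (Fin q × Fin q) × (ℤ × ℤ × ℤ))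
    (lam : ℤ[X] → ℝ) (sg : ℤ → ℤ → ℤ[X] → Bool)
    (hloc : LocProp q G (fun n => |(n : ℝ)|) K cl lam sg) (Kp : ℕ → ℝ)
    (clp : ℕ → ℤ[X] → (Fin q × Fin q) × (ℤ × ℤ × ℤ)) (lamp : ℕ → ℤ[X] → ℝ)
    (sgp : ℕ → ℤ → ℤ → ℤ[X] → Bool)
    (hlocp : ∀ p ∈ S, LocProp q G (av p) (Kp p) (clp p) (lamp p) (sgp p)) :
    ∃ C : ℝ, 0 < C ∧ ∀ (k : ℕ) (E : Finset ℤ[X]),
      (∀ f ∈ E, f.natDegree = 2 ∧ resultant f G 2 q ≠ 0 ∧ mm f ≤ Real.exp (k + 1) ∧
        dsc (cv f) ≠ 0 ∧ (lam f * ∏ p ∈ S, lamp p f) * (op (dsc (cv f)).natAbs : ℝ) ≤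
          K₀ * Real.exp (-(ε * k))) →
      (∀ f ∈ E, ∀ g ∈ E, f ≠ g → res (cv f) (cv g) ≠ 0) →
      (∀ f ∈ E, ∀ g ∈ E, cl f = cl g ∧ ∀ p ∈ S, clp p f = clp p g) →
      (E.card : ℝ) ≤ C * Real.exp (k * max 0 ((2 - ε) / 3)) := by
  classical
  have hK1 : 1 ≤ K := hloc.1
  have hKp1 : ∀ p ∈ S, 1 ≤ Kp p := fun p hp => (hlocp p hp).1
  set KK : ℝ := K * ∏ p ∈ S, Kp p with hKK
  have hKK1 : 1 ≤ KK := by
    have : 1 ≤ ∏ p ∈ S, Kp p := by
      have h0 : ∏ p ∈ S, (1 : ℝ) ≤ ∏ p ∈ S, Kp p :=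
        Finset.prod_le_prod (fun _ _ => zero_le_one) hKp1
      simpa using h0
    rw [hKK]; nlinarith
  have hKK0 : 0 < KK := by linarith
  set e : ℝ := Real.exp 1 with he
  have he0 : 0 < e := Real.exp_pos _
  set C₃ : ℝ := (2 * (4 * e * (K₀ * KK ^ 2) ^ (1 / ε)) + 1) ^ 3 with hC₃
  have hC₃0 : 0 < C₃ := by positivity
  set C₁ : ℝ := 1 + 25 * KK * (4 * e) + 125 * KK ^ 2 * (4 * e) with hC₁
  have hC₁0 : 0 < C₁ := by positivity
  set C₂ : ℝ := 2 ^ (S.card + 1) * (3 * (K₀ * KK)) with hC₂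
  have hC₂0 : 0 < C₂ := by positivity
  refine ⟨C₁ + C₂ + C₃, by positivity, fun k E hE hres hcl => ?_⟩
  set θ : ℝ := (2 - ε) / 3 with hθ
  have hmax1 : 1 ≤ Real.exp (k * max 0 θ) :=
    Real.one_le_exp (mul_nonneg (Nat.cast_nonneg _) (le_max_left _ _))
  rcases E.eq_empty_or_nonempty with rfl | ⟨f₀, hf₀⟩
  · simp only [Finset.card_empty, Nat.cast_zero]; positivity
  obtain ⟨hd₀, hR₀, hM₀, hΔ₀, hst₀⟩ := hE f₀ hf₀
  have hlam0 : ∀ f ∈ E, 0 < lam f := fun f hf =>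
    (hloc.2.1 f (hE f hf).1.le (hE f hf).2.1).1
  have hlamp0 : ∀ f ∈ E, ∀ p ∈ S, 0 < lamp p f := fun f hf p hp =>
    ((hlocp p hp).2.1 f (hE f hf).1.le (hE f hf).2.1).1
  set Λ₀ : ℝ := lam f₀ * ∏ p ∈ S, lamp p f₀ with hΛ₀
  have hΛ0 : 0 < Λ₀ := mul_pos (hlam0 f₀ hf₀) (Finset.prod_pos fun p hp => hlamp0 f₀ hf₀ p hp)
  have hcomp : ∀ f ∈ E, lam f ≤ K * lam f₀ := fun f hf =>
    (hloc.2.2.1 f₀ f hd₀.le (hE f hf).1.le hR₀ (hE f hf).2.1 (hcl f₀ hf₀ f hf).1).1
  have hcompp : ∀ f ∈ E, ∀ p ∈ S, lamp p f ≤ Kp p * lamp p f₀ := fun f hf p hp =>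
    ((hlocp p hp).2.2.1 f₀ f hd₀.le (hE f hf).1.le hR₀ (hE f hf).2.1
      ((hcl f₀ hf₀ f hf).2 p hp)).1
  have hcompL : ∀ f ∈ E, lam f₀ ≤ K * lam f := fun f hf =>
    (hloc.2.2.1 f f₀ (hE f hf).1.le hd₀.le (hE f hf).2.1 hR₀ (hcl f hf f₀ hf₀).1).1
  have hcomppL : ∀ f ∈ E, ∀ p ∈ S, lamp p f₀ ≤ Kp p * lamp p f := fun f hf p hp =>
    ((hlocp p hp).2.2.1 f f₀ (hE f hf).1.le hd₀.le (hE f hf).2.1 hR₀
      ((hcl f hf f₀ hf₀).2 p hp)).1
  set s : ℝ := 4 * Real.exp (k + 1) with hs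
  have hse : s = 4 * e * Real.exp k := by rw [hs, he, Real.exp_add]; ring
  have hs0 : 0 < s := by positivity
  have hcoef : ∀ f ∈ E, ∀ i : Fin 3, |((f.coeff i : ℤ) : ℝ)| ≤ s := by
    intro f hf i
    have h1 := coeff_le f i
    rw [(hE f hf).1] at h1
    refine h1.trans ?_
    have h2 := (hE f hf).2.2.1
    rw [hs]; linarith
  have hcoefp : ∀ f ∈ E, ∀ p ∈ S, ∀ i : Fin 3, av p (f.coeff i) ≤ 1 := fun f _ p hp i =>
    av_le_one p (hS p hp) _
  -- the case of small height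
  by_cases hbig : KK ^ 2 * Λ₀ < 1
  swap
  · push Not at hbig
    have h1 : (1 : ℝ) ≤ (op (dsc (cv f₀)).natAbs : ℝ) := by exact_mod_cast op_pos _
    have h2 : Λ₀ ≤ K₀ * Real.exp (-(ε * k)) := (le_mul_of_one_le_right hΛ0.le h1).trans hst₀
    have h3 : Real.exp (ε * k) ≤ K₀ * KK ^ 2 := by
      have h4 : KK ^ 2 * Λ₀ ≤ KK ^ 2 * (K₀ * Real.exp (-(ε * k))) := by gcongr
      have h5 := hbig.trans h4
      have h6 : Real.exp (-(ε * k)) * Real.exp (ε * k) = 1 := by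
        rw [← Real.exp_add]; simp
      have h7 := mul_le_mul_of_nonneg_right h5 (Real.exp_nonneg (ε * k))
      rw [one_mul] at h7
      calc Real.exp (ε * k) ≤ KK ^ 2 * (K₀ * Real.exp (-(ε * k))) * Real.exp (ε * k) := h7
        _ = KK ^ 2 * K₀ * (Real.exp (-(ε * k)) * Real.exp (ε * k)) := by ring
        _ = _ := by rw [h6]; ring
    have h4 : Real.exp k ≤ (K₀ * KK ^ 2) ^ (1 / ε) := by
      have h5 : Real.exp k = (Real.exp (ε * k)) ^ (1 / ε) := by
        rw [← Real.exp_mul]; congr 1; field_simp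
      rw [h5]
      exact Real.rpow_le_rpow (Real.exp_nonneg _) h3 (by positivity)
    -- count all vectors
    set N : ℕ := ⌊s⌋₊ with hN
    have h5 : E.card ≤ (2 * N + 1) ^ 3 := by
      have h6 : (Fintype.piFinset fun _ : Fin 3 => Finset.Icc (-(N : ℤ)) N).card =
          (2 * N + 1) ^ 3 := by
        rw [Fintype.card_piFinset, Finset.prod_const, Finset.card_univ, Fintype.card_fin,
          Int.card_Icc]
        congr 1
        omega
      rw [← h6]
      refine Finset.card_le_card_of_injOn cv ?_ ?_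
      · intro f hf
        rw [Finset.mem_coe, Fintype.mem_piFinset]
        intro i
        rw [Finset.mem_Icc, ← abs_le]
        have h7 := hcoef f (Finset.mem_coe.1 hf) i
        have h8 : (f.coeff i).natAbs ≤ N := by
          apply Nat.le_floor
          rw [Nat.cast_natAbs]
          push_cast
          exact h7
        show |f.coeff i| ≤ _
        rw [Int.abs_eq_natAbs]
        exact_mod_cast h8
      · intro f hf g hg hfg
        exact cv_inj (hE f hf).1.le (hE g hg).1.le hfg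
    have h6 : (E.card : ℝ) ≤ (2 * N + 1) ^ 3 := by exact_mod_cast h5
    have h7 : (N : ℝ) ≤ s := Nat.floor_le hs0.le
    have h8 : (E.card : ℝ) ≤ C₃ := by
      refine h6.trans ?_
      rw [hC₃]
      have h9 : s ≤ 4 * e * (K₀ * KK ^ 2) ^ (1 / ε) := by
        rw [hse]; exact mul_le_mul_of_nonneg_left h4 (by positivity)
      gcongr
      linarith
    calc (E.card : ℝ) ≤ C₃ := h8
      _ ≤ C₃ * Real.exp (k * max 0 θ) := le_mul_of_one_le_right hC₃0.le hmax1
      _ ≤ (C₁ + C₂ + C₃) * Real.exp (k * max 0 θ) := by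
          refine mul_le_mul_of_nonneg_right ?_ (Real.exp_nonneg _)
          linarith
  -- first bound: lattices
  have hΛle1 : Λ₀ ≤ 1 := by
    have : 1 ≤ KK ^ 2 := one_le_pow₀ hKK1
    nlinarith
  have hb1 : (E.card : ℝ) ≤ C₁ * max 1 (Real.sqrt Λ₀ * Real.exp k) := by
    have hinj : Set.InjOn cv (E : Set ℤ[X]) := by
      intro f hf g hg hfg
      exact cv_inj (hE f hf).1.le (hE g hg).1.le hfg
    have hkey := key S hS (K ^ 2 * lam f₀ * s ^ 2) (K ^ 2 * lam f₀ * s)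
      (fun p => |Kp p ^ 2 * lamp p f₀|) (fun p => |Kp p ^ 2 * lamp p f₀|)
      (by have := hlam0 f₀ hf₀; positivity) (by have := hlam0 f₀ hf₀; positivity)
      (fun _ => abs_nonneg _) (fun _ => abs_nonneg _) (E.image cv)
      (by
        intro u hu w hw huw
        obtain ⟨f, hf, rfl⟩ := Finset.mem_image.1 hu
        obtain ⟨g, hg, rfl⟩ := Finset.mem_image.1 hw
        exact hres f hf g hg (fun h => huw (by rw [h])))
      (by
        intro u hu w hw
        obtain ⟨f, hf, rfl⟩ := Finset.mem_image.1 hu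
        obtain ⟨g, hg, rfl⟩ := Finset.mem_image.1 hw
        have h1 := (hloc.2.2.1 f g (hE f hf).1.le (hE g hg).1.le (hE f hf).2.1 (hE g hg).2.1
          (hcl f hf g hg).1).2.1 s (hcoef f hf) (hcoef g hg)
        refine h1.trans ?_
        have h2 := hcomp f hf
        calc K * lam f * s ^ 2 ≤ K * (K * lam f₀) * s ^ 2 := by gcongr
          _ = _ := by ring)
      (by
        intro p hp u hu w hw
        obtain ⟨f, hf, rfl⟩ := Finset.mem_image.1 hu
        obtain ⟨g, hg, rfl⟩ := Finset.mem_image.1 hw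
        have h1 := ((hlocp p hp).2.2.1 f g (hE f hf).1.le (hE g hg).1.le (hE f hf).2.1
          (hE g hg).2.1 ((hcl f hf g hg).2 p hp)).2.1 1 (hcoefp f hf p hp) (hcoefp g hg p hp)
        refine h1.trans (le_trans ?_ (le_abs_self _))
        have h2 := hcompp f hf p hp
        have h3 : 0 ≤ Kp p := zero_le_one.trans (hKp1 p hp)
        calc Kp p * lamp p f * 1 ^ 2 ≤ Kp p * (Kp p * lamp p f₀) * 1 ^ 2 := by gcongr
          _ = _ := by ring)
      (by
        intro u hu w hw z hz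
        obtain ⟨f, hf, rfl⟩ := Finset.mem_image.1 hu
        obtain ⟨g, hg, rfl⟩ := Finset.mem_image.1 hw
        obtain ⟨h, hh, rfl⟩ := Finset.mem_image.1 hz
        have h1 := hloc.2.2.2 f g h (hE f hf).1.le (hE g hg).1.le (hE h hh).1.le (hE f hf).2.1
          (hE g hg).2.1 (hE h hh).2.1 (hcl f hf g hg).1 (hcl f hf h hh).1 s (hcoef f hf)
          (hcoef g hg) (hcoef h hh)
        refine h1.trans ?_
        have h2 := hcomp f hf
        calc K * lam f * s ≤ K * (K * lam f₀) * s := by gcongr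
          _ = _ := by ring)
      (by
        intro p hp u hu w hw z hz
        obtain ⟨f, hf, rfl⟩ := Finset.mem_image.1 hu
        obtain ⟨g, hg, rfl⟩ := Finset.mem_image.1 hw
        obtain ⟨h, hh, rfl⟩ := Finset.mem_image.1 hz
        have h1 := (hlocp p hp).2.2.2 f g h (hE f hf).1.le (hE g hg).1.le (hE h hh).1.le
          (hE f hf).2.1 (hE g hg).2.1 (hE h hh).2.1 ((hcl f hf g hg).2 p hp)
          ((hcl f hf h hh).2 p hp) 1 (hcoefp f hf p hp) (hcoefp g hg p hp) (hcoefp h hh p hp)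
        refine h1.trans (le_trans ?_ (le_abs_self _))
        have h2 := hcompp f hf p hp
        have h3 : 0 ≤ Kp p := zero_le_one.trans (hKp1 p hp)
        calc Kp p * lamp p f * 1 ≤ Kp p * (Kp p * lamp p f₀) * 1 := by gcongr
          _ = _ := by ring)
    rw [Finset.card_image_of_injOn hinj] at hkey
    have hprodp : ∏ p ∈ S, |Kp p ^ 2 * lamp p f₀| = (∏ p ∈ S, Kp p) ^ 2 * ∏ p ∈ S, lamp p f₀ := by
      rw [← Finset.prod_pow, ← Finset.prod_mul_distrib]
      refine Finset.prod_congr rfl fun p hp => ?_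
      rw [abs_of_nonneg]
      have := hlamp0 f₀ hf₀ p hp
      positivity
    rw [hprodp] at hkey
    have e1 : K ^ 2 * lam f₀ * s ^ 2 * ((∏ p ∈ S, Kp p) ^ 2 * ∏ p ∈ S, lamp p f₀) =
        (KK * s) ^ 2 * Λ₀ := by rw [hKK, hΛ₀]; ring
    have e2 : K ^ 2 * lam f₀ * s * ((∏ p ∈ S, Kp p) ^ 2 * ∏ p ∈ S, lamp p f₀) =
        KK ^ 2 * s * Λ₀ := by rw [hKK, hΛ₀]; ring
    rw [e1, e2, Real.sqrt_mul (sq_nonneg _), Real.sqrt_sq (by positivity)] at hkey
    have hsq : Λ₀ ≤ Real.sqrt Λ₀ := by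
      apply Real.le_sqrt_of_sq_le
      nlinarith
    have m1 : 1 ≤ max 1 (Real.sqrt Λ₀ * Real.exp k) := le_max_left _ _
    have m2 : Real.sqrt Λ₀ * Real.exp k ≤ max 1 (Real.sqrt Λ₀ * Real.exp k) := le_max_right _ _
    have hek : 0 < Real.exp (k : ℝ) := Real.exp_pos _
    have b1 : KK * s * Real.sqrt Λ₀ ≤ KK * (4 * e) * max 1 (Real.sqrt Λ₀ * Real.exp k) := by
      rw [hse]
      calc KK * (4 * e * Real.exp k) * Real.sqrt Λ₀
          = KK * (4 * e) * (Real.sqrt Λ₀ * Real.exp k) := by ring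
        _ ≤ _ := by gcongr
    have b2 : KK ^ 2 * s * Λ₀ ≤ KK ^ 2 * (4 * e) * max 1 (Real.sqrt Λ₀ * Real.exp k) := by
      rw [hse]
      calc KK ^ 2 * (4 * e * Real.exp k) * Λ₀
          ≤ KK ^ 2 * (4 * e * Real.exp k) * Real.sqrt Λ₀ := by gcongr
        _ = KK ^ 2 * (4 * e) * (Real.sqrt Λ₀ * Real.exp k) := by ring
        _ ≤ _ := by gcongr
    rw [hC₁]
    calc (E.card : ℝ) ≤ 1 + 25 * (KK * s * Real.sqrt Λ₀) + 125 * (KK ^ 2 * s * Λ₀) := hkey
      _ ≤ max 1 (Real.sqrt Λ₀ * Real.exp k) +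
          25 * (KK * (4 * e) * max 1 (Real.sqrt Λ₀ * Real.exp k)) +
          125 * (KK ^ 2 * (4 * e) * max 1 (Real.sqrt Λ₀ * Real.exp k)) := by gcongr
      _ = _ := by ring
  -- second bound: the gap principle in the quadratic fields
  have hb2 : (E.card : ℝ) ≤ C₂ * (Real.exp (-(ε * k)) / Λ₀) := by
    have hex : ∀ f : ℤ[X], ∃ t : ℤ, dsc (cv f) ≠ 0 → dsc (cv f) = sqf (dsc (cv f)) * t ^ 2 := by
      intro f
      by_cases h : dsc (cv f) = 0
      · exact ⟨0, fun h' => absurd h h'⟩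
      · obtain ⟨t, ht⟩ := exists_sqf _ h
        exact ⟨t, fun _ => ht⟩
    choose m hm using hex
    set Φ : ℤ[X] → ℤ × (Bool × (S → Bool)) := fun f => (sqf (dsc (cv f)),
      (sg (sqf (dsc (cv f))) (m f) f, fun p => sgp p (sqf (dsc (cv f))) (m f) f)) with hΦ
    have hinj : Set.InjOn Φ (E : Set ℤ[X]) := by
      intro f hf g hg hfg
      by_contra hne
      have hf : f ∈ E := hf
      have hg : g ∈ E := hg
      have h1 : sqf (dsc (cv f)) = sqf (dsc (cv g)) := congrArg Prod.fst hfg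
      have h2 : sg (sqf (dsc (cv f))) (m f) f = sg (sqf (dsc (cv g))) (m g) g :=
        congrArg (fun z => z.2.1) hfg
      have h3 : ∀ p (hp : p ∈ S), sgp p (sqf (dsc (cv f))) (m f) f =
          sgp p (sqf (dsc (cv g))) (m g) g := by
        intro p hp
        exact congrFun (congrArg (fun z => z.2.2) hfg) ⟨p, hp⟩
      have hΔf := hm f (hE f hf).2.2.2.1
      have hΔg := hm g (hE g hg).2.2.2.1
      rw [← h1] at h2 hΔg h3
      set d := sqf (dsc (cv f)) with hd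
      set nn : ℤ := d * m f * m g - pol (cv f) (cv g) with hnn
      have hn0 : nn ≠ 0 := by
        intro h0
        have h4 := four_res (cv f) (cv g)
        have h5 : pol (cv f) (cv g) = d * m f * m g := by linarith
        rw [h5] at h4
        have h6 : (4 : ℤ) * res (cv f) (cv g) = 0 := by
          rw [h4, hΔf, hΔg]; ring
        exact hres f hf g hg hne (by omega)
      have h4 := ((hloc.2.2.1 f g (hE f hf).1.le (hE g hg).1.le (hE f hf).2.1 (hE g hg).2.1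
          (hcl f hf g hg).1).2.2 d (m f) (m g) hΔf hΔg h2)
      have h5 : ∀ p ∈ S, av p nn ≤ Kp p ^ 2 * lamp p f₀ := by
        intro p hp
        have h6 := (((hlocp p hp).2.2.1 f g (hE f hf).1.le (hE g hg).1.le (hE f hf).2.1
          (hE g hg).2.1 ((hcl f hf g hg).2 p hp)).2.2 d (m f) (m g) hΔf hΔg (h3 p hp))
        refine h6.trans ?_
        have h2 := hcompp f hf p hp
        have h3 : 0 ≤ Kp p := zero_le_one.trans (hKp1 p hp)
        calc Kp p * lamp p f ≤ Kp p * (Kp p * lamp p f₀) := by gcongr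
          _ = _ := by ring
      have h6 : |(nn : ℝ)| ≤ K ^ 2 * lam f₀ := by
        refine h4.trans ?_
        have h2 := hcomp f hf
        calc K * lam f ≤ K * (K * lam f₀) := by gcongr
          _ = _ := by ring
      have h7 := prod_formula' S hS nn hn0 _ h5
      have h8 : 0 ≤ ∏ p ∈ S, Kp p ^ 2 * lamp p f₀ := Finset.prod_nonneg fun p hp => by
        have := hlamp0 f₀ hf₀ p hp
        positivity
      have h9 : |(nn : ℝ)| * ∏ p ∈ S, Kp p ^ 2 * lamp p f₀ ≤ KK ^ 2 * Λ₀ := by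
        refine (mul_le_mul_of_nonneg_right h6 h8).trans (le_of_eq ?_)
        rw [Finset.prod_mul_distrib, Finset.prod_pow, hKK, hΛ₀]
        ring
      linarith
    set Y : ℝ := K₀ * Real.exp (-(ε * k)) * KK / Λ₀ with hY
    have hY0 : 0 ≤ Y := by positivity
    have hdY : ∀ f ∈ E, (op (dsc (cv f)).natAbs : ℝ) ≤ Y := by
      intro f hf
      have h1 : Λ₀ ≤ KK * (lam f * ∏ p ∈ S, lamp p f) := by
        have h2 : ∏ p ∈ S, lamp p f₀ ≤ ∏ p ∈ S, Kp p * lamp p f :=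
          Finset.prod_le_prod (fun p hp => (hlamp0 f₀ hf₀ p hp).le) fun p hp => hcomppL f hf p hp
        rw [Finset.prod_mul_distrib] at h2
        have h3 : 0 ≤ ∏ p ∈ S, lamp p f₀ :=
          Finset.prod_nonneg fun p hp => (hlamp0 f₀ hf₀ p hp).le
        have h4 : 0 ≤ K * lam f := mul_nonneg (by linarith) (hlam0 f hf).le
        calc Λ₀ ≤ (K * lam f) * ((∏ p ∈ S, Kp p) * ∏ p ∈ S, lamp p f) :=
              mul_le_mul (hcompL f hf) h2 h3 h4
          _ = _ := by rw [hKK]; ring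
      rw [hY, le_div_iff₀ hΛ0]
      have h5 := (hE f hf).2.2.2.2
      have h6 : (0 : ℝ) ≤ (op (dsc (cv f)).natAbs : ℝ) := Nat.cast_nonneg _
      calc (op (dsc (cv f)).natAbs : ℝ) * Λ₀
          ≤ (op (dsc (cv f)).natAbs : ℝ) * (KK * (lam f * ∏ p ∈ S, lamp p f)) := by gcongr
        _ = KK * ((lam f * ∏ p ∈ S, lamp p f) * (op (dsc (cv f)).natAbs : ℝ)) := by ring
        _ ≤ KK * (K₀ * Real.exp (-(ε * k))) := by gcongr
        _ = _ := by ring
    have hY1 : 1 ≤ Y := by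
      refine le_trans ?_ (hdY f₀ hf₀)
      exact_mod_cast op_pos _
    have himg : E.image Φ ⊆ (Finset.Icc (-(⌊Y⌋₊ : ℤ)) ⌊Y⌋₊) ×ˢ
        ((Finset.univ : Finset Bool) ×ˢ (Finset.univ : Finset (S → Bool))) := by
      intro y hy
      obtain ⟨f, hf, rfl⟩ := Finset.mem_image.1 hy
      rw [Finset.mem_product]
      refine ⟨?_, by simp⟩
      rw [Finset.mem_Icc, ← abs_le]
      have h1 := abs_sqf _ (hE f hf).2.2.2.1
      have h2 := hdY f hf
      rw [← h1] at h2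
      have h3 : (sqf (dsc (cv f))).natAbs ≤ ⌊Y⌋₊ := by
        apply Nat.le_floor
        rw [Nat.cast_natAbs]
        push_cast
        exact h2
      show |sqf (dsc (cv f))| ≤ _
      rw [Int.abs_eq_natAbs]
      exact_mod_cast h3
    have hc1 : E.card ≤ (2 * ⌊Y⌋₊ + 1) * (2 * 2 ^ S.card) := by
      rw [← Finset.card_image_of_injOn hinj]
      refine (Finset.card_le_card himg).trans (le_of_eq ?_)
      rw [Finset.card_product, Finset.card_product, Int.card_Icc, Finset.card_univ,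
        Finset.card_univ, Fintype.card_bool, Fintype.card_fun, Fintype.card_bool,
        Fintype.card_coe]
      congr 1
      omega
    have hc2 : (E.card : ℝ) ≤ (2 * ⌊Y⌋₊ + 1) * (2 * 2 ^ S.card) := by exact_mod_cast hc1
    have hc3 : (⌊Y⌋₊ : ℝ) ≤ Y := Nat.floor_le hY0
    calc (E.card : ℝ) ≤ (2 * ⌊Y⌋₊ + 1) * (2 * 2 ^ S.card) := hc2
      _ ≤ (3 * Y) * (2 * 2 ^ S.card) := by
          refine mul_le_mul_of_nonneg_right ?_ (by positivity)
          linarith
      _ = C₂ * (Real.exp (-(ε * k)) / Λ₀) := by rw [hY, hC₂]; ring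
  -- combination
  have hfin : (E.card : ℝ) ≤ (C₁ + C₂) * Real.exp (k * max 0 θ) := by
    have hθle : Real.exp (k * θ) ≤ Real.exp (k * max 0 θ) :=
      Real.exp_le_exp.2 (mul_le_mul_of_nonneg_left (le_max_right _ _) (Nat.cast_nonneg _))
    by_cases hcase : Real.sqrt Λ₀ * Real.exp k ≤ Real.exp (k * θ)
    · calc (E.card : ℝ) ≤ C₁ * max 1 (Real.sqrt Λ₀ * Real.exp k) := hb1
        _ ≤ C₁ * Real.exp (k * max 0 θ) := by
            refine mul_le_mul_of_nonneg_left ?_ hC₁0.le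
            exact max_le hmax1 (hcase.trans hθle)
        _ ≤ _ := by
            refine mul_le_mul_of_nonneg_right ?_ (Real.exp_nonneg _)
            linarith
    · push Not at hcase
      have h1 : Real.exp (k * θ) ^ 2 < Λ₀ * Real.exp k ^ 2 := by
        have h2 := pow_lt_pow_left₀ hcase (Real.exp_nonneg _) (n := 2) (by norm_num)
        rwa [mul_pow, Real.sq_sqrt hΛ0.le] at h2
      have h3 : Real.exp (-(ε * k)) / Λ₀ ≤ Real.exp (k * θ) := by
        rw [div_le_iff₀ hΛ0]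
        have h4 : Real.exp (-(ε * k)) = Real.exp (k * θ) * (Real.exp (k * θ) ^ 2 *
            (Real.exp (k : ℝ) ^ 2)⁻¹) := by
          rw [← Real.exp_nat_mul, ← Real.exp_nat_mul, ← Real.exp_neg, ← Real.exp_add,
            ← Real.exp_add]
          congr 1
          rw [hθ]; push_cast; ring
        rw [h4]
        refine mul_le_mul_of_nonneg_left ?_ (Real.exp_nonneg _)
        rw [mul_inv_le_iff₀ (by positivity)]
        exact h1.le
      calc (E.card : ℝ) ≤ C₂ * (Real.exp (-(ε * k)) / Λ₀) := hb2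
        _ ≤ C₂ * Real.exp (k * max 0 θ) := by
            exact mul_le_mul_of_nonneg_left (h3.trans hθle) hC₂0.le
        _ ≤ _ := by
            refine mul_le_mul_of_nonneg_right ?_ (Real.exp_nonneg _)
            linarith
  refine hfin.trans (mul_le_mul_of_nonneg_right ?_ (Real.exp_nonneg _))
  linarith

end Pool.Agent.W226.VQ
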