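import Mathlib
import Pool.Agent.W226.VQ.Cls

set_option autoImplicit false

namespace Pool.Agent.W226.VQ

open Polynomial Finset Pool.Agent.H990R4.VJ Pool.Agent.H990R4.VJ.Red Pool.Agent.H813R3.Voj

/-- two irreducible polynomials with a common complex root are equal up to sign -/
lemma eq_or_neg_of_root {f g : ℤ[X]} (hf : Irreducible f) (hg : Irreducible g)
    (hfd : 1 ≤ f.natDegree) (hgd : 1 ≤ g.natDegree) (z : ℂ) (hz : aeval z f = 0)
    (hz' : aeval z g = 0) : f = g ∨ f = -g := by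
  have hpf : f.IsPrimitive := hf.isPrimitive (by omega)
  have hpg : g.IsPrimitive := hg.isPrimitive (by omega)
  have hif : Irreducible (f.map (algebraMap ℤ ℚ)) :=
    (hpf.irreducible_iff_irreducible_map_fraction_map).1 hf
  have hig : Irreducible (g.map (algebraMap ℤ ℚ)) :=
    (hpg.irreducible_iff_irreducible_map_fraction_map).1 hg
  have hzf' : aeval z (f.map (algebraMap ℤ ℚ)) = 0 := by rw [aeval_map_algebraMap]; exact hz
  have hzg' : aeval z (g.map (algebraMap ℤ ℚ)) = 0 := by rw [aeval_map_algebraMap]; exact hz'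
  have hint : IsIntegral ℚ z := by
    rw [← isAlgebraic_iff_isIntegral]
    exact ⟨f.map (algebraMap ℤ ℚ), hif.ne_zero, hzf'⟩
  have ha1 : Associated (minpoly ℚ z) (f.map (algebraMap ℤ ℚ)) :=
    (minpoly.irreducible hint).associated_of_dvd hif (minpoly.dvd ℚ z hzf')
  have ha2 : Associated (minpoly ℚ z) (g.map (algebraMap ℤ ℚ)) :=
    (minpoly.irreducible hint).associated_of_dvd hig (minpoly.dvd ℚ z hzg')
  have h1 : f.map (algebraMap ℤ ℚ) ∣ g.map (algebraMap ℤ ℚ) := (ha1.symm.trans ha2).dvd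
  have h2 : g.map (algebraMap ℤ ℚ) ∣ f.map (algebraMap ℤ ℚ) := (ha2.symm.trans ha1).dvd
  have h3 : f ∣ g := (hpf.dvd_iff_fraction_map_dvd_fraction_map ℚ).2 h1
  have h4 : g ∣ f := (hpg.dvd_iff_fraction_map_dvd_fraction_map ℚ).2 h2
  obtain ⟨u, hu⟩ := associated_of_dvd_dvd h3 h4
  obtain ⟨c, hc, hcu⟩ := Polynomial.isUnit_iff.1 u.isUnit
  rcases Int.isUnit_iff.1 hc with h | h
  · left; rw [← hu, ← hcu, h]; simp
  · right; rw [← hu, ← hcu, h]; simp

lemma eq_quad (f : ℤ[X]) (hf : f.natDegree ≤ 2) (z : ℂ) :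
    aeval z f = (f.coeff 0 : ℂ) + f.coeff 1 * z + f.coeff 2 * z ^ 2 := by
  rw [aeval_eq_sum_range' (n := 3) (by omega), Finset.sum_range_succ, Finset.sum_range_succ,
    Finset.sum_range_one]
  simp

/-- the resultant of two irreducible quadratic polynomials vanishes only if they are equal up to
sign -/
lemma res_ne {f g : ℤ[X]} (hf : Irreducible f) (hg : Irreducible g) (hfd : f.natDegree = 2)
    (hgd : g.natDegree = 2) (h : res (cv f) (cv g) = 0) : f = g ∨ f = -g := by
  have hlc : (f.coeff 2 : ℂ) ≠ 0 := by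
    have : f.coeff 2 ≠ 0 := by
      rw [← hfd, coeff_natDegree, leadingCoeff_ne_zero]; exact hf.ne_zero
    exact_mod_cast this
  obtain ⟨z, hz⟩ : ∃ z : ℂ, aeval z f = 0 := by
    have hdeg : (f.map (Int.castRingHom ℂ)).degree ≠ 0 := by
      rw [degree_map_eq_of_injective (RingHom.injective_int _), degree_eq_natDegree hf.ne_zero, hfd]
      norm_num
    obtain ⟨z, hz⟩ := IsAlgClosed.exists_root _ hdeg
    refine ⟨z, ?_⟩
    rw [IsRoot.def, eval_map] at hz
    rw [aeval_def]; exact hz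
  have hz2 := hz
  rw [eq_quad f hfd.le] at hz2
  set a : ℂ := (f.coeff 2 : ℂ) with ha
  set b : ℂ := (f.coeff 1 : ℂ) with hb
  set c : ℂ := (f.coeff 0 : ℂ) with hc
  set a' : ℂ := (g.coeff 2 : ℂ) with ha'
  set b' : ℂ := (g.coeff 1 : ℂ) with hb'
  set c' : ℂ := (g.coeff 0 : ℂ) with hc'
  have hcast : ((res (cv f) (cv g) : ℤ) : ℂ) = (c * a' - a * c') ^ 2 -
      (c * b' - b * c') * (b * a' - a * b') := by
    unfold res cv
    push_cast
    simp only [Fin.val_zero, Fin.val_one, Fin.val_two]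
    rfl
  rw [h, Int.cast_zero] at hcast
  have hcz : c = -(b * z + a * z ^ 2) := by linear_combination hz2
  have hfac : (a' * z ^ 2 + b' * z + c') *
      (a' * (b + a * z) ^ 2 - a * b' * (b + a * z) + a ^ 2 * c') = 0 := by
    rw [hcz] at hcast
    linear_combination -hcast
  rcases mul_eq_zero.1 hfac with h1 | h1
  · refine eq_or_neg_of_root hf hg (by omega) (by omega) z hz ?_
    rw [eq_quad g hgd.le, ← ha', ← hb', ← hc']
    linear_combination h1
  · set z₂ : ℂ := -(b + a * z) / a with hz₂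
    have haz : a * z₂ = -(b + a * z) := by rw [hz₂]; field_simp
    refine eq_or_neg_of_root hf hg (by omega) (by omega) z₂ ?_ ?_
    · rw [eq_quad f hfd.le, ← ha, ← hb, ← hc, hcz]
      have : a * (-(b * z + a * z ^ 2) + b * z₂ + a * z₂ ^ 2) = 0 := by
        have e : a * (-(b * z + a * z ^ 2) + b * z₂ + a * z₂ ^ 2) =
            -a * (b * z + a * z ^ 2) + b * (a * z₂) + (a * z₂) ^ 2 := by ring
        rw [e, haz]; ring
      exact (mul_eq_zero.1 this).resolve_left hlc
    · rw [eq_quad g hgd.le, ← ha', ← hb', ← hc']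
      have : a ^ 2 * (c' + b' * z₂ + a' * z₂ ^ 2) = 0 := by
        have e : a ^ 2 * (c' + b' * z₂ + a' * z₂ ^ 2) =
            a ^ 2 * c' + a * b' * (a * z₂) + a' * (a * z₂) ^ 2 := by ring
        rw [e, haz]; linear_combination h1
      exact (mul_eq_zero.1 this).resolve_left (pow_ne_zero 2 hlc)

/-- the discriminant of an irreducible quadratic polynomial is not zero -/
lemma dsc_ne {f : ℤ[X]} (hf : Irreducible f) (hfd : f.natDegree = 2) : dsc (cv f) ≠ 0 := by
  intro h0
  have hlc : f.coeff 2 ≠ 0 := by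
    rw [← hfd, coeff_natDegree, leadingCoeff_ne_zero]; exact hf.ne_zero
  -- the linear polynomial `2 a T + b` has the root `- b / 2 a`
  set z : ℂ := -(f.coeff 1 : ℂ) / (2 * f.coeff 2) with hz
  have hlcC : (f.coeff 2 : ℂ) ≠ 0 := by exact_mod_cast hlc
  have h1 : aeval z f = 0 := by
    rw [eq_quad f hfd.le]
    have h2 : ((f.coeff 1 : ℂ)) ^ 2 - 4 * f.coeff 0 * f.coeff 2 = 0 := by
      have : f.coeff 1 ^ 2 - 4 * f.coeff 0 * f.coeff 2 = 0 := h0
      exact_mod_cast this
    rw [hz]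
    field_simp
    linear_combination -h2
  have hprim : f.IsPrimitive := hf.isPrimitive (by omega)
  have hirr : Irreducible (f.map (algebraMap ℤ ℚ)) :=
    (hprim.irreducible_iff_irreducible_map_fraction_map).1 hf
  have hzf' : aeval z (f.map (algebraMap ℤ ℚ)) = 0 := by rw [aeval_map_algebraMap]; exact h1
  set y : ℚ := -(f.coeff 1 : ℚ) / (2 * f.coeff 2) with hy
  have hyz : (algebraMap ℚ ℂ) y = z := by
    rw [hy, hz]; simp
  have h3 : aeval y (f.map (algebraMap ℤ ℚ)) = 0 := by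
    rw [← hyz, aeval_algebraMap_apply] at hzf'
    exact (map_eq_zero (algebraMap ℚ ℂ)).1 hzf'
  have h4 : (f.map (algebraMap ℤ ℚ)).degree = 1 :=
    degree_eq_one_of_irreducible_of_root hirr (x := y) (by
      rw [IsRoot.def, ← coe_aeval_eq_eval]; exact h3)
  rw [degree_map_eq_of_injective (RingHom.injective_int _), degree_eq_natDegree hf.ne_zero, hfd] at h4
  norm_num at h4

lemma mm_le (f : ℤ[X]) (hf : f.natDegree ≤ 2) : ∃ i : Fin 3, mm f ≤ 3 * |((f.coeff i : ℤ) : ℝ)| ∧
    ∀ j : Fin 3, |((f.coeff j : ℤ) : ℝ)| ≤ |((f.coeff i : ℤ) : ℝ)| := by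
  obtain ⟨i₀, _, hi₀⟩ := Finset.exists_max_image (Finset.univ : Finset (Fin 3))
    (fun i => |((f.coeff i : ℤ) : ℝ)|) Finset.univ_nonempty
  refine ⟨i₀, ?_, fun j => hi₀ j (Finset.mem_univ _)⟩
  have h1 := mahlerMeasure_le_sum_norm_coeff (f.map (Int.castRingHom ℂ))
  rw [sum_over_range' _ (by simp) 3 (by
    rw [natDegree_map_eq_of_injective (RingHom.injective_int _)]; omega)] at h1
  refine h1.trans ?_
  have h2 : ∑ a ∈ range 3, ‖(f.map (Int.castRingHom ℂ)).coeff a‖ ≤
      ∑ _a ∈ range 3, |((f.coeff i₀ : ℤ) : ℝ)| := by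
    refine Finset.sum_le_sum fun a ha => ?_
    rw [coeff_map]
    have h3 := hi₀ ⟨a, Finset.mem_range.1 ha⟩ (Finset.mem_univ _)
    have h4 : ‖(Int.castRingHom ℂ) (f.coeff a)‖ = |((f.coeff a : ℤ) : ℝ)| := by
      simp
    rw [h4]
    exact h3
  rw [Finset.sum_const, Finset.card_range, nsmul_eq_mul] at h2
  push_cast at h2
  exact h2

lemma prim_at' (f : ℤ[X]) (hd : f.natDegree = 2) (hf : Irreducible f) (p : ℕ)
    (hp : p.Prime) : ∃ i : Fin 3, ¬ (p : ℤ) ∣ f.coeff i := by
  have hprim : f.IsPrimitive := hf.isPrimitive (by omega)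
  by_contra h
  push Not at h
  have h1 : C (p : ℤ) ∣ f := by
    rw [C_dvd_iff_dvd_coeff]
    intro i
    by_cases hi : i ≤ 2
    · exact h ⟨i, by omega⟩
    · rw [coeff_eq_zero_of_natDegree_lt (by omega)]; exact dvd_zero _
  have h2 := hprim _ h1
  exact (Nat.prime_iff_prime_int.1 hp).not_unit h2

end Pool.Agent.W226.VQ
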