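import Mathlib
import Pool.Agent.W226.VQ.Main

set_option autoImplicit false

namespace Pool.Agent.W226.VQ

open Polynomial Finset Pool.Agent.H990R4.VJ Pool.Agent.H990R4.VJ.Red Pool.Agent.H813R3.Voj

lemma log_pow_le (M : ℕ) (a δ : ℝ) (ha : 0 ≤ a) (hδ : 0 < δ) :
    ∃ C : ℝ, 0 < C ∧ ∀ B : ℝ, 1 ≤ B → (a * (1 + Real.log B)) ^ M ≤ C * B ^ δ := by
  set σ : ℝ := δ / (M + 1) with hσ
  have hσ0 : 0 < σ := by positivity
  refine ⟨(a * (1 + 1 / σ)) ^ M + 1, by positivity, fun B hB => ?_⟩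
  have hB0 : 0 < B := by linarith
  have h1 : Real.log B ≤ B ^ σ / σ := Real.log_le_rpow_div hB0.le hσ0
  have h2 : (1 : ℝ) ≤ B ^ σ := Real.one_le_rpow hB hσ0.le
  have h3 : 1 + Real.log B ≤ (1 + 1 / σ) * B ^ σ := by
    have : (1 + 1 / σ) * B ^ σ = B ^ σ + B ^ σ / σ := by ring
    linarith
  have hl : 0 ≤ Real.log B := Real.log_nonneg hB
  have h4 : (B ^ σ) ^ M ≤ B ^ δ := by
    rw [← Real.rpow_natCast, ← Real.rpow_mul hB0.le]
    refine Real.rpow_le_rpow_of_exponent_le hB ?_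
    rw [hσ, div_mul_eq_mul_div, div_le_iff₀ (by positivity)]
    nlinarith
  calc (a * (1 + Real.log B)) ^ M ≤ (a * ((1 + 1 / σ) * B ^ σ)) ^ M := by gcongr
    _ = (a * (1 + 1 / σ)) ^ M * (B ^ σ) ^ M := by rw [← mul_assoc, mul_pow]
    _ ≤ (a * (1 + 1 / σ)) ^ M * B ^ δ := by gcongr
    _ ≤ _ := by
        refine mul_le_mul_of_nonneg_right ?_ (by positivity)
        linarith

lemma star_aux (n : ℕ) {m s lf pl o K pK R pav K₁ me : ℝ} (hm : 0 < m) (_hs : 0 ≤ s)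
    (hlf : 0 ≤ lf) (hpl : 0 ≤ pl) (ho : 0 ≤ o) (hK : 0 ≤ K) (hpK : 0 ≤ pK) (hR : 0 ≤ R)
    (_hpav : 0 ≤ pav) (h6 : m ^ n ≤ 3 ^ n * s ^ n) (h3 : lf * s ^ n ≤ K * R) (h5 : pl ≤ pK * pav)
    (hb : R * pav * o ≤ K₁ * m ^ n * me) : (lf * pl) * o ≤ ((K * pK) * 3 ^ n * K₁) * me := by
  have h7 : m ^ n * ((lf * pl) * o) ≤ m ^ n * (((K * pK) * 3 ^ n * K₁) * me) := by
    calc m ^ n * ((lf * pl) * o) ≤ (3 ^ n * s ^ n) * ((lf * pl) * o) :=
          mul_le_mul_of_nonneg_right h6 (by positivity)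
      _ = 3 ^ n * ((lf * s ^ n) * pl * o) := by ring
      _ ≤ 3 ^ n * ((K * R) * (pK * pav) * o) := by
          refine mul_le_mul_of_nonneg_left ?_ (by positivity)
          refine mul_le_mul_of_nonneg_right ?_ ho
          exact mul_le_mul h3 h5 hpl (by positivity)
      _ = 3 ^ n * (K * pK) * (R * pav * o) := by ring
      _ ≤ 3 ^ n * (K * pK) * (K₁ * m ^ n * me) := mul_le_mul_of_nonneg_left hb (by positivity)
      _ = _ := by ring
  exact le_of_mul_le_mul_left h7 (by positivity)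

lemma fin_aux {cE ci C₀ Q C₁ X Y : ℝ} (hX : 0 ≤ X) (hC₀ : 0 ≤ C₀) (h1 : cE ≤ ci * (C₀ * X))
    (h2 : ci ≤ Q * (C₁ * Y)) : cE ≤ (C₀ * (Q * C₁)) * (X * Y) := by
  have h3 : ci * (C₀ * X) ≤ (Q * (C₁ * Y)) * (C₀ * X) :=
    mul_le_mul_of_nonneg_right h2 (mul_nonneg hC₀ hX)
  calc cE ≤ _ := h1
    _ ≤ _ := h3
    _ = _ := by ring

lemma cls_aux (M : ℕ) {c fl L N' q' : ℝ} (hfl : 0 ≤ fl) (hN : 0 ≤ N') (h3 : c ≤ fl * (q' ^ 2 * N' ^ 3) ^ M)
    (h4 : fl ≤ L) (h5 : N' ≤ L) : c ≤ q' ^ (2 * M) * L ^ (1 + 3 * M) := by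
  have hL : 0 ≤ L := hfl.trans h4
  refine h3.trans ?_
  calc fl * (q' ^ 2 * N' ^ 3) ^ M ≤ L * (q' ^ 2 * L ^ 3) ^ M := by
        refine mul_le_mul h4 ?_ (by positivity) hL
        refine pow_le_pow_left₀ (by positivity) ?_ _
        exact mul_le_mul_of_nonneg_left (pow_le_pow_left₀ hN h5 3) (by positivity)
    _ = _ := by rw [mul_pow, ← pow_mul, ← pow_mul, pow_add, pow_one]; ring

theorem main2 (q : ℕ) (hq : 2 ≤ q) (G : ℤ[X]) (hG : G ≠ 0)
    (hsep : (G.map (Int.castRingHom ℚ)).Separable) (h1 : G.natDegree ≤ q)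
    (h2 : q ≤ G.natDegree + 1) (S : Finset ℕ) (hS : ∀ p ∈ S, p.Prime) (ε K₁ δ : ℝ)
    (hε : 0 < ε) (hK₁ : 0 < K₁) (hδ : 0 < δ) :
    ∃ C : ℝ, 0 < C ∧ ∀ B : ℝ, 1 ≤ B → ∀ E : Finset ℤ[X],
      (∀ f ∈ E, Irreducible f ∧ f.natDegree = 2 ∧ mm f ≤ B ^ 2 ∧ resultant f G 2 q ≠ 0 ∧
        |((resultant f G 2 q : ℤ) : ℝ)| * (∏ p ∈ S, av p (resultant f G 2 q)) *
          (op (dsc (cv f)).natAbs : ℝ) ≤ K₁ * mm f ^ (q - 2) * mm f ^ (-ε)) →
      (∀ f ∈ E, ∀ g ∈ E, f ≠ -g) →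
      (E.card : ℝ) ≤ C * B ^ (max 0 ((4 - 2 * ε) / 3) + δ) := by
  classical
  obtain ⟨K, cl, lam, sg, hloc⟩ := loc_complex q hq G hG hsep h1 h2
  have hex : ∀ p : ℕ, ∃ (Kp : ℝ) (clp : ℤ[X] → (Fin q × Fin q) × (ℤ × ℤ × ℤ)) (lamp : ℤ[X] → ℝ)
      (sgp : ℤ → ℤ → ℤ[X] → Bool), p ∈ S → LocProp q G (av p) Kp clp lamp sgp := by
    intro p
    by_cases hp : p ∈ S
    · obtain ⟨Kp, clp, lamp, sgp, h⟩ := loc_padic p (hS p hp) q hq G hG hsep h1 h2
      exact ⟨Kp, clp, lamp, sgp, fun _ => h⟩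
    · exact ⟨0, cl, lam, sg, fun h => absurd h hp⟩
  choose Kp clp lamp sgp hlocp using hex
  have hK1 : 1 ≤ K := hloc.1
  have hKp1 : ∀ p ∈ S, 1 ≤ Kp p := fun p hp => (hlocp p hp).1
  obtain ⟨KK, hKK⟩ : ∃ z : ℝ, z = K * ∏ p ∈ S, Kp p := ⟨_, rfl⟩
  have hKKp : 0 < ∏ p ∈ S, Kp p := Finset.prod_pos fun p hp => by linarith [hKp1 p hp]
  have hKK0 : 0 < KK := by rw [hKK]; exact mul_pos (by linarith) hKKp
  obtain ⟨K₀, hK₀⟩ : ∃ z : ℝ, z = KK * 3 ^ (q - 2) * K₁ := ⟨_, rfl⟩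
  have hK₀0 : 0 < K₀ := by rw [hK₀]; positivity
  obtain ⟨C₀, hC₀, hcount⟩ := class_count q G S hS ε K₀ hε hK₀0 K cl lam sg hloc Kp clp lamp sgp
    hlocp
  obtain ⟨CG, hCG⟩ : ∃ z : ℝ, z = 1 + ∑ i ∈ range (q + 1), |(G.coeff i : ℝ)| := ⟨_, rfl⟩
  have hCG1 : 1 ≤ CG := by
    have : 0 ≤ ∑ i ∈ range (q + 1), |(G.coeff i : ℝ)| := Finset.sum_nonneg fun _ _ => abs_nonneg _
    rw [hCG]; linarith
  have hlCG : 0 ≤ Real.log CG := Real.log_nonneg hCG1
  obtain ⟨KS, hKS⟩ : ∃ z : ℝ, z = K + ∑ p ∈ S, Kp p := ⟨_, rfl⟩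
  have hKS0 : 0 ≤ ∑ p ∈ S, Kp p := Finset.sum_nonneg fun p hp => by linarith [hKp1 p hp]
  have hKS1 : 1 ≤ KS := by rw [hKS]; linarith
  have hKSp : ∀ p ∈ S, Kp p ≤ KS := by
    intro p hp
    have := Finset.single_le_sum (f := Kp) (fun p hp => by linarith [hKp1 p hp]) hp
    rw [hKS]; linarith
  have hl4 : 0 ≤ Real.log 4 := Real.log_nonneg (by norm_num)
  obtain ⟨a, ha⟩ : ∃ z : ℝ, z = 2 * (KS * (1 + Real.log 4 + 2 + 2 * Real.log CG + 2 * q)) + 1 := ⟨_, rfl⟩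
  have hin0 : 0 ≤ 1 + Real.log 4 + 2 + 2 * Real.log CG + 2 * q := by positivity
  have hKS00 : 0 ≤ KS := by linarith
  have ha0 : 0 ≤ a := by rw [ha]; positivity
  have ha2 : 2 ≤ a := by
    have h3 : 1 ≤ 1 + Real.log 4 + 2 + 2 * Real.log CG + 2 * q := by
      have : (0 : ℝ) ≤ 2 * q := by positivity
      linarith
    have : 1 * 1 ≤ KS * (1 + Real.log 4 + 2 + 2 * Real.log CG + 2 * q) :=
      mul_le_mul hKS1 h3 zero_le_one (by linarith)
    rw [ha]; linarith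
  obtain ⟨C₁, hC₁, hlog⟩ := log_pow_le (1 + 3 * (S.card + 1)) a δ ha0 hδ
  refine ⟨C₀ * ((q : ℝ) ^ (2 * (S.card + 1)) * C₁) , by positivity, fun B hB E hE hneg => ?_⟩
  have hB0 : 0 < B := by linarith
  have hlB : 0 ≤ Real.log B := Real.log_nonneg hB
  obtain ⟨N, hN⟩ : ∃ z : ℕ, z = ⌊KS * (1 + Real.log 4 + 2 * Real.log B + 2 * Real.log CG + 2 * q * Real.log B)⌋₊
    := ⟨_, rfl⟩
  have hL0 : 0 ≤ KS * (1 + Real.log 4 + 2 * Real.log B + 2 * Real.log CG + 2 * q * Real.log B) := by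
    positivity
  have hNle : (N : ℝ) ≤
      KS * (1 + Real.log 4 + 2 * Real.log B + 2 * Real.log CG + 2 * q * Real.log B) := by
    rw [hN]; exact Nat.floor_le hL0
  have hmmpos : ∀ f ∈ E, 1 ≤ mm f := fun f hf => one_le_mm (hE f hf).1.ne_zero
  set kk : ℤ[X] → ℕ := fun f => ⌊Real.log (mm f)⌋₊ with hkk
  have hkk1 : ∀ f ∈ E, Real.exp (kk f) ≤ mm f := by
    intro f hf
    have h3 : (kk f : ℝ) ≤ Real.log (mm f) := Nat.floor_le (Real.log_nonneg (hmmpos f hf))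
    calc Real.exp (kk f) ≤ Real.exp (Real.log (mm f)) := Real.exp_le_exp.2 h3
      _ = mm f := Real.exp_log (by linarith [hmmpos f hf])
  have hkk2 : ∀ f ∈ E, mm f ≤ Real.exp (kk f + 1) := by
    intro f hf
    have h3 : Real.log (mm f) ≤ (kk f : ℝ) + 1 := (Nat.lt_floor_add_one _).le
    calc mm f = Real.exp (Real.log (mm f)) := (Real.exp_log (by linarith [hmmpos f hf])).symm
      _ ≤ _ := Real.exp_le_exp.2 h3
  have hkkB : ∀ f ∈ E, (kk f : ℝ) ≤ 2 * Real.log B := by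
    intro f hf
    have h3 : (kk f : ℝ) ≤ Real.log (mm f) := Nat.floor_le (Real.log_nonneg (hmmpos f hf))
    have h4 := Real.log_le_log (by linarith [hmmpos f hf]) (hE f hf).2.2.1
    rw [Real.log_pow] at h4
    push_cast at h4
    linarith
  -- the condition on the class invariant
  have hstar : ∀ f ∈ E, (lam f * ∏ p ∈ S, lamp p f) * (op (dsc (cv f)).natAbs : ℝ) ≤
      K₀ * Real.exp (-(ε * kk f)) := by
    intro f hf
    obtain ⟨hirr, hd, hmB, hR, hb⟩ := hE f hf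
    obtain ⟨i₀, hi₀, hi₁⟩ := mm_le f hd.le
    have hm1 := hmmpos f hf
    set s : ℝ := |((f.coeff i₀ : ℤ) : ℝ)| with hs
    have hs0 : 0 < s := by linarith
    have h3 := (hloc.2.1 f hd.le hR).2.1 s hs0 hi₁ ⟨i₀, le_refl _⟩
    have hlam0 : 0 < lam f := (hloc.2.1 f hd.le hR).1
    have h4 : ∀ p ∈ S, lamp p f ≤ Kp p * av p (resultant f G 2 q) := by
      intro p hp
      have h5 := ((hlocp p hp).2.1 f hd.le hR).2.1 1 one_pos
        (fun i => av_le_one p (hS p hp) _) (by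
          obtain ⟨i, hi⟩ := prim_at' f hd hirr p (hS p hp)
          exact ⟨i, (av_eq_one p (hS p hp) hi).ge⟩)
      rw [one_pow, mul_one] at h5
      exact h5
    have hlamp0 : ∀ p ∈ S, 0 < lamp p f := fun p hp => ((hlocp p hp).2.1 f hd.le hR).1
    have h5 : ∏ p ∈ S, lamp p f ≤ (∏ p ∈ S, Kp p) * ∏ p ∈ S, av p (resultant f G 2 q) := by
      rw [← Finset.prod_mul_distrib]
      exact Finset.prod_le_prod (fun p hp => (hlamp0 p hp).le) h4
    have h6 : (mm f) ^ (q - 2) ≤ 3 ^ (q - 2) * s ^ (q - 2) := by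
      rw [← mul_pow]
      exact pow_le_pow_left₀ (by linarith) hi₀ _
    have hop : (0 : ℝ) ≤ (op (dsc (cv f)).natAbs : ℝ) := Nat.cast_nonneg _
    have hav : 0 ≤ ∏ p ∈ S, av p (resultant f G 2 q) :=
      Finset.prod_nonneg fun p _ => av_nonneg p _
    have hpl : 0 ≤ ∏ p ∈ S, lamp p f := Finset.prod_nonneg fun p hp => (hlamp0 p hp).le
    have hmm0 : 0 < mm f := by linarith
    have h8 : (lam f * ∏ p ∈ S, lamp p f) * (op (dsc (cv f)).natAbs : ℝ) ≤ K₀ * mm f ^ (-ε) := by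
      rw [hK₀, hKK]
      exact star_aux (q - 2) hmm0 hs0.le hlam0.le hpl hop (by linarith) hKKp.le (abs_nonneg _) hav
        h6 h3 h5 hb
    refine h8.trans (mul_le_mul_of_nonneg_left ?_ hK₀0.le)
    have h9 : mm f ^ (-ε) ≤ (Real.exp (kk f)) ^ (-ε) :=
      Real.rpow_le_rpow_of_nonpos (Real.exp_pos _) (hkk1 f hf) (by linarith)
    refine h9.trans (le_of_eq ?_)
    rw [← Real.exp_mul]; congr 1; ring
  -- the classes
  set I : Finset ℤ := Finset.Icc (-(N : ℤ)) N with hI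
  set BX : Finset ((Fin q × Fin q) × (ℤ × ℤ × ℤ)) :=
    (Finset.univ : Finset (Fin q × Fin q)) ×ˢ (I ×ˢ (I ×ˢ I)) with hBX
  set Ψ : ℤ[X] → ℕ × (((Fin q × Fin q) × (ℤ × ℤ × ℤ)) × (S → (Fin q × Fin q) × (ℤ × ℤ × ℤ))) :=
    fun f => (kk f, (cl f, fun p => clp p f)) with hΨ
  have hmemI : ∀ z : ℤ, |(z : ℝ)| ≤
      KS * (1 + Real.log 4 + 2 * Real.log B + 2 * Real.log CG + 2 * q * Real.log B) → z ∈ I := by
    intro z hz
    rw [hI, Finset.mem_Icc, ← abs_le]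
    have h3 : z.natAbs ≤ N := by
      rw [hN]
      apply Nat.le_floor
      rw [Nat.cast_natAbs]
      push_cast
      exact hz
    rw [Int.abs_eq_natAbs]
    exact_mod_cast h3
  have himg : E.image Ψ ⊆ (Finset.range (⌊2 * Real.log B⌋₊ + 1)) ×ˢ
      (BX ×ˢ (Fintype.piFinset fun _ : S => BX)) := by
    intro y hy
    obtain ⟨f, hf, rfl⟩ := Finset.mem_image.1 hy
    obtain ⟨hirr, hd, hmB, hR, hb⟩ := hE f hf
    have hmm1 := hmmpos f hf
    rw [Finset.mem_product, Finset.mem_product, Fintype.mem_piFinset]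
    have hR1 : (1 : ℝ) ≤ |((resultant f G 2 q : ℤ) : ℝ)| := by
      exact_mod_cast Int.one_le_abs hR
    have hRup : |((resultant f G 2 q : ℤ) : ℝ)| ≤
        Real.exp (2 * Real.log CG + 2 * q * Real.log B) := by
      have h3 := abs_res_le f G q h1
      rw [hd, ← hCG] at h3
      refine h3.trans ?_
      have h4 : Real.exp (2 * Real.log CG + 2 * q * Real.log B) = CG ^ 2 * (B ^ 2) ^ q := by
        rw [Real.exp_add, mul_comm (2 : ℝ) (Real.log CG), Real.exp_mul, Real.exp_log (by linarith),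
          show 2 * (q : ℝ) * Real.log B = Real.log B * ((2 * q : ℕ) : ℝ) by push_cast; ring,
          Real.exp_mul, Real.exp_log hB0, ← pow_mul, Real.rpow_natCast]
        norm_num
      rw [h4]
      exact mul_le_mul_of_nonneg_left (pow_le_pow_left₀ (by linarith) hmB _) (by positivity)
    refine ⟨?_, ?_, ?_⟩
    · rw [Finset.mem_range]
      exact Nat.lt_succ_of_le (Nat.le_floor (hkkB f hf))
    · have h3 := (hloc.2.1 f hd.le hR).2.2 (4 * B ^ 2) 0 (by nlinarith) le_rfl (fun i => by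
        have h4 := coeff_le f i
        rw [hd] at h4
        refine h4.trans ?_
        norm_num
        exact hmB) (by simpa using hR1)
      rw [add_zero, Real.log_mul (by norm_num) (by positivity), Real.log_pow] at h3
      push_cast at h3
      have h5 : K * (1 + (Real.log 4 + 2 * Real.log B)) ≤
          KS * (1 + Real.log 4 + 2 * Real.log B + 2 * Real.log CG + 2 * q * Real.log B) := by
        have : 0 ≤ 2 * (q : ℝ) * Real.log B := by positivity
        refine mul_le_mul (by linarith) (by linarith) (by positivity) (by linarith)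
      simp only [hΨ, hBX, Finset.mem_product]
      exact ⟨Finset.mem_univ _, hmemI _ (h3.1.trans h5), hmemI _ (h3.2.1.trans h5),
        hmemI _ (h3.2.2.trans h5)⟩
    · intro p
      have hp := p.2
      have h3 := ((hlocp p hp).2.1 f hd.le hR).2.2 1 (2 * Real.log CG + 2 * q * Real.log B)
        le_rfl (by positivity) (fun i => av_le_one p (hS p hp) _) (by
          have h4 := prod_formula {(p : ℕ)} (by
            intro p' hp'; rw [Finset.mem_singleton] at hp'; subst hp'; exact hS p hp) _ hR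
          rw [Finset.prod_singleton] at h4
          have h5 := av_pos p (hS p hp) hR
          have h6 : 1 ≤ Real.exp (2 * Real.log CG + 2 * q * Real.log B) *
              av p (resultant f G 2 q) := h4.trans (mul_le_mul_of_nonneg_right hRup h5.le)
          rw [Real.exp_neg, inv_le_iff_one_le_mul₀ (Real.exp_pos _)]
          linarith)
      rw [Real.log_one, add_zero] at h3
      have h5 : Kp p * (1 + (2 * Real.log CG + 2 * q * Real.log B)) ≤
          KS * (1 + Real.log 4 + 2 * Real.log B + 2 * Real.log CG + 2 * q * Real.log B) := by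
        have : 0 ≤ 2 * (q : ℝ) * Real.log B := by positivity
        refine mul_le_mul (hKSp p hp) (by linarith) (by positivity) (by linarith)
      simp only [hΨ, hBX, Finset.mem_product]
      exact ⟨Finset.mem_univ _, hmemI _ (h3.1.trans h5), hmemI _ (h3.2.1.trans h5),
        hmemI _ (h3.2.2.trans h5)⟩
  have hIc : I.card = 2 * N + 1 := by rw [hI, Int.card_Icc]; omega
  have hBXc : BX.card = q ^ 2 * (2 * N + 1) ^ 3 := by
    rw [hBX, Finset.card_product, Finset.card_product, Finset.card_product, hIc,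
      Finset.card_univ, Fintype.card_prod, Fintype.card_fin]
    ring
  have himgc : (E.image Ψ).card ≤ (⌊2 * Real.log B⌋₊ + 1) * (q ^ 2 * (2 * N + 1) ^ 3) ^ (S.card + 1) := by
    refine (Finset.card_le_card himg).trans (le_of_eq ?_)
    rw [Finset.card_product, Finset.card_product, Finset.card_range, Fintype.card_piFinset,
      Finset.prod_const, Finset.card_univ, Fintype.card_coe, hBXc]
    ring
  -- fibres
  have hBθ : ∀ f ∈ E, Real.exp (kk f * max 0 ((2 - ε) / 3)) ≤ B ^ (max 0 ((4 - 2 * ε) / 3)) := by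
    intro f hf
    have h3 : max 0 ((4 - 2 * ε) / 3) = 2 * max 0 ((2 - ε) / 3) := by
      rw [mul_max_of_nonneg _ _ (by norm_num : (0 : ℝ) ≤ 2), mul_zero]
      congr 1; ring
    rw [h3, Real.rpow_def_of_pos hB0]
    refine Real.exp_le_exp.2 ?_
    have h4 := hkkB f hf
    have h5 : 0 ≤ max 0 ((2 - ε) / 3) := le_max_left _ _
    nlinarith
  have hfib : ∀ y ∈ E.image Ψ, ((E.filter fun f => Ψ f = y).card : ℝ) ≤
      C₀ * B ^ (max 0 ((4 - 2 * ε) / 3)) := by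
    intro y hy
    obtain ⟨f₀, hf₀, rfl⟩ := Finset.mem_image.1 hy
    have h3 := hcount (kk f₀) (E.filter fun f => Ψ f = Ψ f₀) (by
      intro f hf
      rw [Finset.mem_filter] at hf
      have hk : kk f = kk f₀ := congrArg Prod.fst hf.2
      obtain ⟨hirr, hd, hmB, hR, hb⟩ := hE f hf.1
      refine ⟨hd, hR, ?_, dsc_ne hirr hd, ?_⟩
      · rw [← hk]; exact hkk2 f hf.1
      · rw [← hk]; exact hstar f hf.1) (by
      intro f hf g hg hfg h0
      rw [Finset.mem_filter] at hf hg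
      rcases res_ne (hE f hf.1).1 (hE g hg.1).1 (hE f hf.1).2.1 (hE g hg.1).2.1 h0 with h | h
      · exact hfg h
      · exact hneg f hf.1 g hg.1 h) (by
      intro f hf g hg
      rw [Finset.mem_filter] at hf hg
      have hfg : Ψ f = Ψ g := hf.2.trans hg.2.symm
      refine ⟨congrArg (fun z => z.2.1) hfg, fun p hp => ?_⟩
      exact congrFun (congrArg (fun z => z.2.2) hfg) ⟨p, hp⟩)
    exact h3.trans (mul_le_mul_of_nonneg_left (hBθ f₀ hf₀) hC₀.le)
  have hsum : (E.card : ℝ) ≤ ((E.image Ψ).card : ℝ) * (C₀ * B ^ (max 0 ((4 - 2 * ε) / 3))) := by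
    rw [Finset.card_eq_sum_card_image Ψ E]
    push_cast
    rw [← nsmul_eq_mul, ← Finset.sum_const]
    exact Finset.sum_le_sum hfib
  have hcl : ((E.image Ψ).card : ℝ) ≤ (q : ℝ) ^ (2 * (S.card + 1)) * (C₁ * B ^ δ) := by
    have h3 : ((E.image Ψ).card : ℝ) ≤
        (⌊2 * Real.log B⌋₊ + 1) * ((q : ℝ) ^ 2 * (2 * N + 1) ^ 3) ^ (S.card + 1) := by
      exact_mod_cast himgc
    have h4 : (⌊2 * Real.log B⌋₊ : ℝ) + 1 ≤ a * (1 + Real.log B) := by
      have h5 : (⌊2 * Real.log B⌋₊ : ℝ) ≤ 2 * Real.log B := Nat.floor_le (by positivity)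
      nlinarith
    have h5 : 2 * (N : ℝ) + 1 ≤ a * (1 + Real.log B) := by
      rw [ha]
      have h6 : 1 + Real.log 4 + 2 * Real.log B + 2 * Real.log CG + 2 * q * Real.log B ≤
          (1 + Real.log 4 + 2 + 2 * Real.log CG + 2 * q) * (1 + Real.log B) := by
        have q0 : (0 : ℝ) ≤ 2 * q := by positivity
        nlinarith [mul_nonneg hl4 hlB, mul_nonneg hlCG hlB]
      have h7 := mul_le_mul_of_nonneg_left h6 (show 0 ≤ KS by linarith)
      nlinarith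
    have h8 := cls_aux (S.card + 1) (by positivity) (by positivity) h3 h4 h5
    exact h8.trans (mul_le_mul_of_nonneg_left (hlog B hB) (by positivity))
  rw [Real.rpow_add hB0]
  exact fin_aux (by positivity) hC₀.le hsum hcl

end Pool.Agent.W226.VQ
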