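import Mathlib
import Pool.Agent.W226.VQ.Main2
import Pool.Agent.H813R3.Voj.Disc2

set_option autoImplicit false

namespace Pool.Agent.W226.VQ

open Polynomial Finset IntermediateField Pool.Agent.H990R4.VJ Pool.Agent.H990R4.VJ.Red
  Pool.Agent.H813R3.Voj

theorem main3 (q : ℕ) (hq : 1 ≤ q) (G : ℤ[X]) (hG : G ≠ 0)
    (hsep : (G.map (Int.castRingHom ℚ)).Separable) (h1 : G.natDegree ≤ q)
    (h2 : q ≤ G.natDegree + 1) (S : Finset ℕ) (hS : ∀ p ∈ S, p.Prime) (ε K₁ δ : ℝ)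
    (hε : 0 < ε) (hK₁ : 0 < K₁) (hδ : 0 < δ) :
    ∃ C : ℝ, 0 < C ∧ ∀ B : ℝ, 1 ≤ B → ∀ E : Finset ℤ[X],
      (∀ f ∈ E, Irreducible f ∧ f.natDegree = 2 ∧ mm f ≤ B ^ 2 ∧ resultant f G 2 q ≠ 0 ∧
        |((resultant f G 2 q : ℤ) : ℝ)| * (∏ p ∈ S, av p (resultant f G 2 q)) *
          (op (dsc (cv f)).natAbs : ℝ) ≤ K₁ * mm f ^ ((q : ℝ) - 2 - ε)) →
      (∀ f ∈ E, ∀ g ∈ E, f ≠ -g) →
      (E.card : ℝ) ≤ C * B ^ (max 0 ((4 - 2 * ε) / 3) + δ) := by
  classical
  rcases Nat.lt_or_ge q 2 with hq2 | hq2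
  · obtain rfl : q = 1 := by omega
    have hfin := finite_mahlerMeasure_le 2 (Real.toNNReal (K₁ ^ (1 / (1 + ε))))
    refine ⟨hfin.toFinset.card + 1, by positivity, fun B hB E hE _ => ?_⟩
    have hsub : E ⊆ hfin.toFinset := by
      intro f hf
      obtain ⟨hirr, hd, _, hR, hb⟩ := hE f hf
      rw [Set.Finite.mem_toFinset, Set.mem_ofPred_eq]
      refine ⟨hd.le, ?_⟩
      rw [Real.coe_toNNReal _ (by positivity)]
      have hm1 : 1 ≤ mm f := one_le_mm hirr.ne_zero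
      have hm0 : 0 < mm f := by linarith
      have h3 := prod_formula S hS _ hR
      have h4 : (1 : ℝ) ≤ (op (dsc (cv f)).natAbs : ℝ) := by exact_mod_cast op_pos _
      have h5 : (1 : ℝ) ≤ K₁ * mm f ^ (((1 : ℕ) : ℝ) - 2 - ε) :=
        (one_le_mul_of_one_le_of_one_le h3 h4).trans hb
      have h6 : mm f ^ (((1 : ℕ) : ℝ) - 2 - ε) = (mm f ^ (1 + ε))⁻¹ := by
        rw [← Real.rpow_neg hm0.le]; congr 1; push_cast; ring
      rw [h6, ← div_eq_mul_inv, le_div_iff₀ (by positivity), one_mul] at h5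
      have h7 : mm f = (mm f ^ (1 + ε)) ^ (1 / (1 + ε)) := by
        rw [← Real.rpow_mul hm0.le, mul_one_div_cancel (by linarith), Real.rpow_one]
      change mm f ≤ _
      rw [h7]
      exact Real.rpow_le_rpow (by positivity) h5 (by positivity)
    have h3 : (E.card : ℝ) ≤ hfin.toFinset.card := by exact_mod_cast Finset.card_le_card hsub
    have h4 : 1 ≤ B ^ (max 0 ((4 - 2 * ε) / 3) + δ) :=
      Real.one_le_rpow hB (add_nonneg (le_max_left _ _) hδ.le)
    nlinarith [show (0 : ℝ) ≤ hfin.toFinset.card from Nat.cast_nonneg _]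
  · obtain ⟨C, hC, h⟩ := main2 q hq2 G hG hsep h1 h2 S hS ε K₁ δ hε hK₁ hδ
    refine ⟨C, hC, fun B hB E hE hn => h B hB E (fun f hf => ?_) hn⟩
    obtain ⟨hirr, hd, hm, hR, hb⟩ := hE f hf
    refine ⟨hirr, hd, hm, hR, hb.trans (le_of_eq ?_)⟩
    have hm1 : 1 ≤ mm f := one_le_mm hirr.ne_zero
    have hm0 : 0 < mm f := by linarith
    rw [mul_assoc, ← Real.rpow_natCast, ← Real.rpow_add hm0]
    congr 2
    rw [Nat.cast_sub hq2]; push_cast; ring

/-- splitting by the sign of the leading coefficient, and counting the roots -/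
theorem count_roots {Q : ℤ[X] → Prop} {N : ℝ} (hQ : ∀ f, Q f → f ≠ 0 ∧ f.natDegree = 2)
    (h : ∀ E : Finset ℤ[X], (∀ f ∈ E, Q f) → (∀ f ∈ E, ∀ g ∈ E, f ≠ -g) → (E.card : ℝ) ≤ N)
    (E : Finset ℂ) (hE : ∀ x ∈ E, ∃ f, Q f ∧ aeval x f = 0) : (E.card : ℝ) ≤ 4 * N := by
  classical
  choose! φ hφ hφ0 using hE
  have key : ∀ s : ℤ, (((E.image φ).filter fun f => 0 < s * f.leadingCoeff).card : ℝ) ≤ N := by
    intro s
    refine h _ (fun f hf => ?_) fun f hf g hg hfg => ?_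
    · obtain ⟨x, hx, rfl⟩ := Finset.mem_image.1 (Finset.mem_filter.1 hf).1
      exact hφ x hx
    · have h1 := (Finset.mem_filter.1 hf).2
      have h2 := (Finset.mem_filter.1 hg).2
      rw [hfg, leadingCoeff_neg] at h1
      linarith
  have h3 : (E.image φ) ⊆ ((E.image φ).filter fun f => 0 < (1 : ℤ) * f.leadingCoeff) ∪
      ((E.image φ).filter fun f => 0 < (-1 : ℤ) * f.leadingCoeff) := by
    intro f hf
    obtain ⟨x, hx, rfl⟩ := Finset.mem_image.1 hf
    have h4 : (φ x).leadingCoeff ≠ 0 := leadingCoeff_ne_zero.2 (hQ _ (hφ x hx)).1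
    rw [Finset.mem_union, Finset.mem_filter, Finset.mem_filter]
    rcases lt_or_gt_of_ne h4 with h5 | h5
    · right; exact ⟨hf, by linarith⟩
    · left; exact ⟨hf, by linarith⟩
  have h4 : ((E.image φ).card : ℝ) ≤ N + N := by
    have h5 : ((E.image φ).card : ℝ) ≤
        ((((E.image φ).filter fun f => 0 < (1 : ℤ) * f.leadingCoeff).card +
        ((E.image φ).filter fun f => 0 < (-1 : ℤ) * f.leadingCoeff).card : ℕ) : ℝ) := by
      exact_mod_cast (Finset.card_le_card h3).trans (Finset.card_union_le _ _)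
    push_cast at h5
    exact h5.trans (add_le_add (key 1) (key (-1)))
  have h5 : E.card ≤ 2 * (E.image φ).card := by
    refine Finset.card_le_mul_card_image E 2 fun f hf => ?_
    obtain ⟨x, hx, rfl⟩ := Finset.mem_image.1 hf
    have hne := (hQ _ (hφ x hx)).1
    have hsub : (E.filter fun y => φ y = φ x) ⊆
        (((φ x).map (Int.castRingHom ℂ)).roots).toFinset := by
      intro y hy
      rw [Finset.mem_filter] at hy
      rw [Multiset.mem_toFinset, mem_roots', IsRoot.def, eval_map]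
      refine ⟨(Polynomial.map_ne_zero_iff (RingHom.injective_int _)).2 hne, ?_⟩
      have := hφ0 y hy.1
      rw [hy.2, aeval_def] at this
      exact this
    refine (Finset.card_le_card hsub).trans ((Multiset.toFinset_card_le _).trans
      ((card_roots' _).trans ((natDegree_map_le).trans (hQ _ (hφ x hx)).2.le)))
  have h6 : (E.card : ℝ) ≤ 2 * ((E.image φ).card : ℝ) := by exact_mod_cast h5
  linarith

lemma sq_eq (f : ℤ[X]) (hf : f.natDegree = 2) (x : ℂ) (hx : aeval x f = 0) :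
    (2 * (f.coeff 2 : ℂ) * x + f.coeff 1) ^ 2 = (dsc (cv f) : ℤ) := by
  rw [eq_quad f hf.le] at hx
  unfold dsc cv
  push_cast
  simp only [Fin.val_zero, Fin.val_one, Fin.val_two]
  linear_combination 4 * (f.coeff 2 : ℂ) * hx

lemma adjoin_eq (a b : ℤ) (ha : a ≠ 0) (x : ℂ) : ℚ⟮x⟯ = ℚ⟮2 * (a : ℂ) * x + b⟯ := by
  apply le_antisymm
  · rw [adjoin_simple_le_iff]
    have hy := mem_adjoin_simple_self ℚ (2 * (a : ℂ) * x + b)
    have ha' : (a : ℂ) ≠ 0 := by exact_mod_cast ha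
    have h1 : x = ((2 * (a : ℂ) * x + b) - (b : ℂ)) / (2 * (a : ℂ)) := by
      field_simp; ring
    have h2 : ((2 * (a : ℂ) * x + b) - (b : ℂ)) / (2 * (a : ℂ)) ∈ ℚ⟮2 * (a : ℂ) * x + b⟯ := by
      refine div_mem (sub_mem hy (intCast_mem _ _)) (mul_mem (ofNat_mem _ 2) (intCast_mem _ _))
    rwa [← h1] at h2
  · rw [adjoin_simple_le_iff]
    have hx := mem_adjoin_simple_self ℚ x
    exact add_mem (mul_mem (mul_mem (ofNat_mem _ 2) (intCast_mem _ _)) hx) (intCast_mem _ _)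

open Classical in
/-- the logarithmic discriminant of a quadratic point -/
theorem log_op_le (f : ℤ[X]) (hirr : Irreducible f) (hf : f.natDegree = 2) (x : ℂ)
    (hx : aeval x f = 0) : Real.log (op (dsc (cv f)).natAbs) ≤
      2 * (if _ : NumberField ℚ⟮x⟯ then
        Real.log |(NumberField.discr ℚ⟮x⟯ : ℝ)| / Module.finrank ℚ ℚ⟮x⟯ else 0) := by
  have hlc : f.coeff 2 ≠ 0 := by
    rw [← hf, coeff_natDegree, leadingCoeff_ne_zero]; exact hirr.ne_zero
  have hy := sq_eq f hf x hx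
  rw [adjoin_eq _ (f.coeff 1) hlc x]
  generalize 2 * (f.coeff 2 : ℂ) * x + f.coeff 1 = y at hy ⊢
  have hnf := numberField_of_sq hy
  rw [dif_pos hnf]
  have h1 := log_opS_le (dsc_ne hirr hf) hy ∅
  have h2 : opS ∅ (dsc (cv f)) = op (dsc (cv f)).natAbs := by
    unfold opS op oddPrimes; rw [Finset.sdiff_empty]
  rw [h2] at h1
  exact h1

end Pool.Agent.W226.VQ
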